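import Pool.Agent.Helper24.NZ.K

/-!
# From bounded functions to the ground states
-/

set_option autoImplicit false
set_option linter.unusedSectionVars false

open MeasureTheory Measure Filter Topology

namespace Pool.Agent.Helper24.NZ

open Pool.Agent.K3h93.EA Pool.Agent.Helper24.EA
open Pool.Agent.K3h93.EF hiding psi_eq psi_le psi_meas upper1 psi_le' step1 step2 step3 scale_est main_est main_abs

variable {μ ν : Measure ℝ} [IsProbabilityMeasure μ] [IsProbabilityMeasure ν]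

lemma patch_law (F : Set E) : MeasurePreserving (fun p : (E → ℝ) × (E → ℝ) => patch F p.1 p.2)
    ((infinitePi fun _ : E => μ).prod (infinitePi fun _ : E => μ)) (infinitePi fun _ : E => μ) :=
  measurePreserving_fst.comp (sw_law μ F)

lemma CE_congr {f g : (E → ℝ) → ℝ} (h : f =ᵐ[infinitePi fun _ : E => μ] g) (I : Set E) :
    CE μ I f =ᵐ[infinitePi fun _ : E => μ] CE μ I g := by
  have h1 : ∀ᵐ p ∂((infinitePi fun _ : E => μ).prod (infinitePi fun _ : E => μ)),
      f (patch Iᶜ p.1 p.2) = g (patch Iᶜ p.1 p.2) :=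
    (patch_law (μ := μ) Iᶜ).quasiMeasurePreserving.ae h
  filter_upwards [ae_ae_of_ae_prod h1] with J hJ
  exact integral_congr_ae hJ

lemma nI_congr {f g : (E → ℝ) → ℝ} (h : f =ᵐ[infinitePi fun _ : E => μ] g) (I : Set E) :
    nI μ I f = nI μ I g := by
  unfold nI
  refine integral_congr_ae ?_
  filter_upwards [CE_congr h I] with J hJ
  rw [hJ]

lemma Dl_congr {f g : (E → ℝ) → ℝ} (h : f =ᵐ[infinitePi fun _ : E => μ] g) (δ : ℝ) (e : E) :
    Dl μ ν δ e f = Dl μ ν δ e g := by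
  unfold Dl
  refine integral_congr_ae (Eventually.of_forall fun ξ => ?_)
  simp only [hh_eq]
  exact nI_congr h _

lemma cb_ae {s : (E → ℝ) → V → ℝ} (hs : ∀ᵐ J ∂(infinitePi fun _ : E => μ), Spin (s J)) (e : E) :
    cb s e =ᵐ[infinitePi fun _ : E => μ] fun J => bp (s J) e :=
  hs.mono fun _ h => cb_of h e

lemma PQ_fst : MeasurePreserving (fun p : (E → ℝ) × ((E → ℝ) × (E → ℝ)) => p.2.1) (PQ μ ν)
    (infinitePi fun _ : E => μ) := by
  unfold PQ
  exact measurePreserving_fst.comp measurePreserving_snd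

lemma mx_law (δ : ℝ) : MeasurePreserving (fun p : (E → ℝ) × ((E → ℝ) × (E → ℝ)) =>
    mx δ p.1 p.2.1 p.2.2) (PQ μ ν) (infinitePi fun _ : E => μ) := by
  unfold PQ
  have h1 : MeasurePreserving (fun p : (E → ℝ) × ((E → ℝ) × (E → ℝ)) =>
      (p.1, mx δ p.1 p.2.1 p.2.2))
      ((infinitePi fun _ : E => ν).prod ((infinitePi fun _ : E => μ).prod
        (infinitePi fun _ : E => μ)))
      ((infinitePi fun _ : E => ν).prod (infinitePi fun _ : E => μ)) := by
    refine (MeasurePreserving.id (infinitePi fun _ : E => ν)).skew_product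
      (g := fun (ξ : E → ℝ) (q : (E → ℝ) × (E → ℝ)) => mx δ ξ q.1 q.2) ?_ (Eventually.of_forall fun ξ => ?_)
    · exact mx_meas δ
    · exact (patch_law (μ := μ) (kn δ ξ)ᶜ).map_eq
  exact measurePreserving_snd.comp h1

lemma resp_eq {s s' : (E → ℝ) → V → ℝ} (hs : Measurable s) (hs' : Measurable s')
    (h : ∀ᵐ J ∂(infinitePi fun _ : E => μ), Spin (s J))
    (h' : ∀ᵐ J ∂(infinitePi fun _ : E => μ), Spin (s' J)) (δ : ℝ) (e : E) :
    (PQ μ ν).real {p | bp (s p.2.1) e ≠ bp (s' (mx δ p.1 p.2.1 p.2.2)) e} =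
      (1 - Cr μ ν δ (cb s e) (cb s' e)) / 2 := by
  have h1 : ∀ᵐ p ∂(PQ μ ν), Spin (s p.2.1) := PQ_fst.quasiMeasurePreserving.ae h
  have h2 : ∀ᵐ p ∂(PQ μ ν), Spin (s' (mx δ p.1 p.2.1 p.2.2)) :=
    (mx_law δ).quasiMeasurePreserving.ae h'
  rw [prob_ne (PQ μ ν) (u := fun p => bp (s p.2.1) e)
    (v := fun p => bp (s' (mx δ p.1 p.2.1 p.2.2)) e)
    ((bpm hs e).comp (measurable_fst.comp measurable_snd)) ((bpm hs' e).comp (mx_meas δ))
    (h1.mono fun _ h => h.bp_cases e) (h2.mono fun _ h => h.bp_cases e)]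
  congr 2
  unfold Cr
  refine integral_congr_ae ?_
  filter_upwards [h1, h2] with p h3 h4
  rw [cb_of h3, cb_of h4]

/-- **Hiding an arbitrary set of couplings**, the limit. -/
theorem lim_det (hμ : Integrable (fun x : ℝ => x) μ) (hat : ∀ x, μ {x} = 0) (i : Fin 2)
    {w w' : ℕ → (E → ℝ) → (V → ℝ) → ℝ} {σ σ' : ℕ → (E → ℝ) → V → ℝ} (hs : Sq μ w σ)
    (hs' : Sq μ w' σ') (U : ℕ → Set E) :
    Tendsto (fun L : ℕ => (∑ a ∈ pos L, Set.indicator (U L) (fun e =>
      nI μ (insert e (U L)ᶜ) (fun J => cb (σ L) e J - cb (σ' L) e J)) (st a (0, i))) /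
        (L : ℝ) ^ 2) atTop (𝓝 0) := by
  classical
  refine tend_of (F := fun L a => Set.indicator (U L) (fun e =>
      nI μ (insert e (U L)ᶜ) (fun J => cb (σ L) e J - cb (σ' L) e J)) (st a (0, i)))
    (B := 2) (fun L a => Set.indicator_nonneg (fun e _ => nI_nonneg _ _) _) (fun L a => ?_)
    fun ε hε => ?_
  · exact Set.indicator_le' (fun e _ => nI_le (cbd_le _ _ _) _) (fun _ _ => by norm_num) _
  · obtain ⟨m, hm⟩ := det_two hμ hat i hε
    refine ⟨m, fun L => ?_⟩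
    have h1 := hm w σ w' σ' hs hs' L (U L)ᶜ (Set.indicator (U L) fun _ => 1)
      (fun e => ⟨Set.indicator_nonneg (fun _ _ => zero_le_one) _,
        Set.indicator_le' (fun _ _ => le_rfl) (fun _ _ => zero_le_one) _⟩)
      (fun e he => Set.indicator_of_notMem he _)
    refine le_trans (le_of_eq (Finset.sum_congr rfl fun a _ => ?_)) h1
    simp only [Set.indicator]
    split_ifs with h
    · rw [one_mul]
    · rw [zero_mul]

/-- the jump of the response function at `0` -/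
noncomputable def chi (μ : Measure ℝ) (m : (E → ℝ) → ℝ) : ℝ :=
  (1 - ∫ J, m J ^ 2 ∂(infinitePi fun _ : E => μ)) / 2

/-- the response function -/
noncomputable def rf (μ ν : Measure ℝ) (m : (E → ℝ) → ℝ) (δ : ℝ) : ℝ := (1 - Cr μ ν δ m m) / 2

variable {m : (E → ℝ) → ℝ}

lemma m2_int (hm : Measurable m) (hm1 : ∀ J, |m J| ≤ 1) :
    Integrable (fun J => m J ^ 2) (infinitePi fun _ : E => μ) :=
  int_bdd μ (hm.pow_const 2) (C := 1) fun J => by
    rw [abs_of_nonneg (sq_nonneg _), ← sq_abs]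
    have := hm1 J
    nlinarith [abs_nonneg (m J)]

lemma m1_int (hm : Measurable m) (hm1 : ∀ J, |m J| ≤ 1) :
    Integrable (fun J => |m J|) (infinitePi fun _ : E => μ) :=
  int_bdd μ hm.abs (C := 1) fun J => by rw [abs_abs]; exact hm1 J

lemma ki_le_chi (hm : Measurable m) (hm1 : ∀ J, |m J| ≤ 1) : ki μ m ≤ chi μ m := by
  unfold ki chi
  have h1 : ∫ J, m J ^ 2 ∂(infinitePi fun _ : E => μ) ≤ ∫ J, |m J| ∂(infinitePi fun _ : E => μ) :=
    integral_mono (m2_int hm hm1) (m1_int hm hm1) fun J => by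
      simp only
      rw [← sq_abs]
      have := hm1 J
      nlinarith [abs_nonneg (m J)]
  linarith

lemma chi_le_ki (hm : Measurable m) (hm1 : ∀ J, |m J| ≤ 1) : chi μ m ≤ 2 * ki μ m := by
  unfold ki chi
  have h1 : ∫ J, 2 * |m J| ∂(infinitePi fun _ : E => μ) ≤
      ∫ J, (1 + m J ^ 2) ∂(infinitePi fun _ : E => μ) :=
    integral_mono ((m1_int hm hm1).const_mul 2) ((integrable_const _).add (m2_int hm hm1))
      fun J => by
        simp only
        rw [← sq_abs]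
        nlinarith [sq_nonneg (1 - |m J|)]
  have h2 : ∫ J, (1 + m J ^ 2) ∂(infinitePi fun _ : E => μ) =
      1 + ∫ J, m J ^ 2 ∂(infinitePi fun _ : E => μ) := by
    rw [integral_add (integrable_const _) (m2_int hm hm1), integral_const, probReal_univ, one_smul]
  rw [integral_const_mul, h2] at h1
  linarith

lemma rf_mono (hm : Measurable m) (hm1 : ∀ J, |m J| ≤ 1) : Monotone (rf μ ν m) := by
  intro δ δ' h
  unfold rf
  have := Cr_anti (μ := μ) (ν := ν) hm hm1 h
  linarith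

lemma chi_le_rf (hm : Measurable m) (hm1 : ∀ J, |m J| ≤ 1) (δ : ℝ) : chi μ m ≤ rf μ ν m δ := by
  unfold rf chi
  have := Cr_le (μ := μ) (ν := ν) hm hm1 δ
  linarith

lemma rf_le (hm : Measurable m) (hm1 : ∀ J, |m J| ≤ 1) (δ : ℝ) : rf μ ν m δ ≤ 1 / 2 := by
  unfold rf
  have := Cr_nonneg (μ := μ) (ν := ν) hm hm1 δ
  linarith

lemma rf_zero (hm : Measurable m) (hm1 : ∀ J, |m J| ≤ 1)
    (hν : Tendsto (fun δ : ℝ => ν.real (Set.Iio δ)) (𝓝[>] 0) (𝓝 0)) :
    Tendsto (rf μ ν m) (𝓝[>] 0) (𝓝 (chi μ m)) := by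
  unfold rf chi
  exact ((Cr_zero hm hm1 hν).const_sub 1).div_const 2

lemma avg_half {X : V → ℝ} {L : ℕ} (hL : 1 ≤ L) :
    (∑ a ∈ pos L, (1 - X a) / 2) / (L : ℝ) ^ 2 = (1 - (∑ a ∈ pos L, X a) / (L : ℝ) ^ 2) / 2 := by
  have h1 := avg_const hL (1 : ℝ)
  rw [← Finset.sum_div, Finset.sum_sub_distrib]
  rw [div_div, mul_comm (2 : ℝ), ← div_div, sub_div, h1]

end Pool.Agent.Helper24.NZ
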