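import Pool.Graph.R_pool_sql_team_seeded_5cf16337.K3h93.EF.Sys

/-!
# Differences of two energies in a window, with some frozen couplings
-/

set_option autoImplicit false
set_option linter.unusedSectionVars false

open MeasureTheory Measure Filter Topology

namespace Pool.Agent.Helper24.NZ

open Pool.Agent.K3h93.EA Pool.Agent.K3h93.EF

variable (μ : Measure ℝ) [IsProbabilityMeasure μ]

/-- functions which vary slowly in the window -/
structure W0 (n N : ℕ) (Φ : (E → ℝ) → ℝ) : Prop where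
  meas : Measurable Φ
  int : Integrable Φ (infinitePi fun _ : E => μ)
  lip : ∀ k ∈ pos n, ∀ J y : E → ℝ, |Φ (patch (blk N k : Finset E) J y) - Φ J| ≤
    2 * ∑ e ∈ blk N k, |y e - J e|

/-- with an additional error at the boundaries -/
structure Wn (n N : ℕ) (Φ : (E → ℝ) → ℝ) (β : ℕ → V → ℝ) : Prop extends W0 μ n N Φ where
  bdry : ∀ (l : ℕ) (j : V), (∀ i, 0 ≤ j i ∧ (l : ℤ) * j i + l ≤ n) → ∀ J y : E → ℝ,
    |Φ J - Φ (patch (SB (nk (l * N) j) (l * N)) J y)| ≤
      4 * ∑ e ∈ DB (l * N), |J (st (nk (l * N) j) e)| + β l j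

variable {μ} {N n : ℕ} {g : V → (E → ℝ) → ℝ} {Φ : (E → ℝ) → ℝ} {h : ℝ}

lemma psi_eq (hN : 1 ≤ N) (hg : Tl μ N g) (hΦ : W0 μ n N Φ) (h0 : 0 ≤ h) {K : Finset V} {k : V}
    (hk : k ∉ K) :
    ∫ J, Zf h g K J * (g k J * Φ J) ∂(infinitePi fun _ : E => μ) =
      ∫ J, Zf h g K J * Psi μ N g Φ k J ∂(infinitePi fun _ : E => μ) := by
  set P := infinitePi fun _ : E => μ with hP
  have hd : Dep ((blk N k : Finset E) : Set E)ᶜ (Zf h g K) := Zf_dep hg.dep fun j hj =>
    Set.subset_compl_iff_disjoint_right.2 (blk_disj hN (fun e => hk (e ▸ hj)))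
  rw [← int_fst μ (fun J => Zf h g K J * (g k J * Φ J)),
    ← sw_int μ ((blk N k : Finset E) : Set E) (fun p => Zf h g K p.1 * (g k p.1 * Φ p.1))]
  have e1 : ∀ p : (E → ℝ) × (E → ℝ), Zf h g K (sw ((blk N k : Finset E) : Set E) p).1 *
      (g k (sw ((blk N k : Finset E) : Set E) p).1 *
        Φ (sw ((blk N k : Finset E) : Set E) p).1) =
      Zf h g K p.1 * (g k p.2 * Φ (patch (blk N k : Finset E) p.1 p.2)) := by
    intro p
    show Zf h g K (patch _ p.1 p.2) * (g k (patch _ p.1 p.2) * Φ (patch _ p.1 p.2)) = _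
    rw [hd.patch_out disjoint_compl_left, (hg.dep k).patch_in le_rfl]
  simp only [e1]
  have iΦ : Integrable (fun p : (E → ℝ) × (E → ℝ) => Φ (patch (blk N k : Finset E) p.1 p.2))
      (P.prod P) :=
    (sw_law μ ((blk N k : Finset E) : Set E)).integrable_comp_of_integrable (hΦ.int.comp_fst _)
  have i1 : Integrable (fun p : (E → ℝ) × (E → ℝ) =>
      Zf h g K p.1 * (g k p.2 * Φ (patch (blk N k : Finset E) p.1 p.2))) (P.prod P) :=
    bi ((Zmeas hg K).comp measurable_fst) (c := (1 + h) ^ K.card) (fun p => Zb hg h0 K _)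
      (bi ((hg.meas k).comp measurable_snd) (c := 1) (fun p => hg.le k _) iΦ)
  rw [integral_prod _ i1]
  refine integral_congr_ae (Eventually.of_forall fun J => ?_)
  simp only
  rw [integral_const_mul]
  rfl

lemma psi_le (hμ : Integrable (fun x : ℝ => x) μ) (hg : Tl μ N g) (hΦ : W0 μ n N Φ) {k : V}
    (hk : k ∈ pos n) (J : E → ℝ) :
    |Psi μ N g Φ k J| ≤ 2 * ((blk N k).card * MU μ) := by
  set P := infinitePi fun _ : E => μ with hP
  set J0 : E → ℝ := patch (blk N k : Finset E) J (fun _ => 0) with hJ0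
  have hpp : ∀ y, patch ((blk N k : Finset E) : Set E) J0 y =
      patch ((blk N k : Finset E) : Set E) J y := by
    intro y
    funext e
    by_cases he : e ∈ ((blk N k : Finset E) : Set E)
    · rw [patch_mem he, patch_mem he]
    · rw [patch_not he, patch_not he, hJ0, patch_not he]
  have hb : ∀ y, |Φ (patch (blk N k : Finset E) J y) - Φ J0| ≤ 2 * ∑ e ∈ blk N k, |y e| := by
    intro y
    have h1 := hΦ.lip k hk J0 y
    rw [hpp] at h1
    refine h1.trans (le_of_eq ?_)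
    congr 1
    refine Finset.sum_congr rfl fun e he => ?_
    rw [hJ0, patch_mem (Finset.mem_coe.2 he), sub_zero]
  have hey : ∀ e : E, Integrable (fun y : E → ℝ => |y e|) P := fun e => (eval_int μ hμ e).abs
  have iL : Integrable (fun y : E → ℝ => 2 * ∑ e ∈ blk N k, |y e|) P :=
    (integrable_finsetSum _ fun e _ => hey e).const_mul 2
  have hm : Measurable fun y => Φ (patch (blk N k : Finset E) J y) - Φ J0 :=
    (hΦ.meas.comp ((measurable_patch _).comp
      (measurable_const.prodMk measurable_id))).sub measurable_const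
  have iD : Integrable (fun y => Φ (patch (blk N k : Finset E) J y) - Φ J0) P :=
    iL.mono' hm.aestronglyMeasurable (Eventually.of_forall fun y => by
      rw [Real.norm_eq_abs]; exact hb y)
  have e1 : Psi μ N g Φ k J = ∫ y, g k y * (Φ (patch (blk N k : Finset E) J y) - Φ J0) ∂P := by
    have e2 : ∫ y, g k y * Φ J0 ∂P = 0 := by
      rw [integral_mul_const, hg.mean, zero_mul]
    unfold Psi
    have i3 : Integrable (fun y => g k y * Φ J0) P :=
      (int_bdd μ (hg.meas k) (hg.le k)).mul_const _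
    have i2 : Integrable (fun y => g k y * (Φ (patch (blk N k : Finset E) J y) - Φ J0)) P :=
      bi (hg.meas k) (hg.le k) iD
    have e3 : ∀ y, g k y * Φ (patch (blk N k : Finset E) J y) =
        g k y * (Φ (patch (blk N k : Finset E) J y) - Φ J0) + g k y * Φ J0 := fun y => by ring
    simp only [e3]
    rw [integral_add i2 i3, e2, add_zero]
  rw [e1]
  refine abs_integral_le_integral_abs.trans ?_
  have h2 : ∫ y, |g k y * (Φ (patch (blk N k : Finset E) J y) - Φ J0)| ∂P ≤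
      ∫ y, 2 * ∑ e ∈ blk N k, |y e| ∂P := by
    refine integral_mono (bi (hg.meas k) (hg.le k) iD).abs iL fun y => ?_
    simp only
    rw [abs_mul]
    have := hb y
    have := hg.le k y
    nlinarith [abs_nonneg (g k y), abs_nonneg (Φ (patch (blk N k : Finset E) J y) - Φ J0)]
  refine h2.trans (le_of_eq ?_)
  rw [integral_const_mul, integral_finsetSum _ fun e _ => hey e]
  have : ∀ e ∈ blk N k, ∫ y : E → ℝ, |y e| ∂P = MU μ := fun e _ => abs_eval e
  rw [Finset.sum_congr rfl this, Finset.sum_const, nsmul_eq_mul]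

lemma psi_meas (hg : Tl μ N g) (hΦ : W0 μ n N Φ) (k : V) : Measurable (Psi μ N g Φ k) := by
  unfold Psi
  have h1 : Measurable fun p : (E → ℝ) × (E → ℝ) =>
      g k p.2 * Φ (patch (blk N k : Finset E) p.1 p.2) :=
    ((hg.meas k).comp measurable_snd).mul (hΦ.meas.comp (measurable_patch _))
  exact (h1.stronglyMeasurable.integral_prod_right).measurable

/-- the upper bound by the boundary of a box -/
lemma upper1 (hN : 1 ≤ N) (hμ : Integrable (fun x : ℝ => x) μ) (hg : Tl μ N g)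
    (hΦ : W0 μ n N Φ) (h0 : 0 ≤ h) (h1 : h ≤ 1) {x : V} {m : ℕ}
    {b : ℝ} (hb : ∀ J y : E → ℝ, |Φ J - Φ (patch (SB x m) J y)| ≤
      4 * ∑ e ∈ DB m, |J (st x e)| + b)
    {K : Finset V} (hK : ∀ k ∈ K, ((blk N k : Finset E) : Set E) ⊆ SB x m)
    (hK' : ∀ k ∈ K, ∀ e ∈ DB m, st x e ∉ blk N k) :
    ∫ J, Zf h g K J * Φ J ∂(infinitePi fun _ : E => μ) -
      ∫ J, Φ J ∂(infinitePi fun _ : E => μ) ≤ 16 * (m + 1) * MU μ + b := by
  set P := infinitePi fun _ : E => μ with hP
  have hdis := blk_disj hN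
  have hZ1 : ∫ J, Zf h g K J ∂P = 1 := Zf_mean μ hdis hg.dep hg.meas hg.le h0 hg.mean K
  have hZ0 : ∀ J, 0 ≤ Zf h g K J := fun J => Zf_nonneg h0 h1 hg.le J
  have hd : Dep (SB x m) (Zf h g K) := Zf_dep hg.dep hK
  have iΦ : Integrable (fun p : (E → ℝ) × (E → ℝ) => Φ (patch (SB x m) p.1 p.2))
      (P.prod P) :=
    (sw_law μ (SB x m)).integrable_comp_of_integrable (hΦ.int.comp_fst _)
  have i1 : Integrable (fun p : (E → ℝ) × (E → ℝ) => Zf h g K p.1 * Φ (patch (SB x m) p.1 p.2))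
      (P.prod P) := bi ((Zmeas hg K).comp measurable_fst) (fun p => Zb hg h0 K _) iΦ
  have i2 : Integrable (fun p : (E → ℝ) × (E → ℝ) => Zf h g K p.1 * Φ p.1)
      (P.prod P) := bi ((Zmeas hg K).comp measurable_fst) (fun p => Zb hg h0 K _)
        (hΦ.int.comp_fst _)
  have e1 : ∫ p, Zf h g K p.1 * Φ (patch (SB x m) p.1 p.2) ∂(P.prod P) = ∫ J, Φ J ∂P := by
    have e2 : ∀ p : (E → ℝ) × (E → ℝ), Zf h g K p.1 * Φ (patch (SB x m) p.1 p.2) =
        (fun q : (E → ℝ) × (E → ℝ) => Φ q.1 * Zf h g K q.2) (sw (SB x m) p) := by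
      intro p
      show _ = Φ (patch (SB x m) p.1 p.2) * Zf h g K (patch (SB x m) p.2 p.1)
      rw [hd.patch_in le_rfl, mul_comm]
    simp only [e2]
    rw [sw_int μ (SB x m) (fun q : (E → ℝ) × (E → ℝ) => Φ q.1 * Zf h g K q.2),
      integral_prod_mul Φ (Zf h g K), hZ1, mul_one]
  have hJi : ∀ e : E, Integrable (fun J : E → ℝ => Zf h g K J * |J e|) P := fun e =>
    bi (Zmeas hg K) (Zb hg h0 K) (eval_int μ hμ e).abs
  have hval : ∀ e ∈ DB m, ∫ J, Zf h g K J * |J (st x e)| ∂P = MU μ := by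
    intro e he
    have hd : Dep ({st x e} : Set E)ᶜ (Zf h g K) := Zf_dep hg.dep
      fun j hj e' he' => by
        intro hc
        rw [Set.mem_singleton_iff] at hc
        subst hc
        exact hK' j hj e he (Finset.mem_coe.1 he')
    have hd' : Dep ({st x e} : Set E) (fun J : E → ℝ => |J (st x e)|) := fun J J' hJ => by
      simp only [hJ _ rfl]
    rw [indep_int μ hd hd', hZ1, one_mul]
    exact abs_eval _
  rw [← e1, ← int_fst μ (fun J => Zf h g K J * Φ J), ← integral_sub i2 i1]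
  have iZ : Integrable (fun J : E → ℝ => Zf h g K J) P :=
    int_bdd μ (Zmeas hg K) (Zb hg h0 K)
  have iU0 : Integrable (fun J : E → ℝ => 4 * ∑ e ∈ DB m, Zf h g K J * |J (st x e)|) P :=
    (integrable_finsetSum _ fun e _ => hJi (st x e)).const_mul 4
  have iU : Integrable (fun p : (E → ℝ) × (E → ℝ) =>
      4 * ∑ e ∈ DB m, Zf h g K p.1 * |p.1 (st x e)| + Zf h g K p.1 * b) (P.prod P) :=
    (iU0.comp_fst _).add ((iZ.mul_const b).comp_fst _)
  have h2 : ∫ p, (Zf h g K p.1 * Φ p.1 - Zf h g K p.1 * Φ (patch (SB x m) p.1 p.2)) ∂(P.prod P) ≤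
      ∫ p : (E → ℝ) × (E → ℝ), (4 * ∑ e ∈ DB m, Zf h g K p.1 * |p.1 (st x e)| +
        Zf h g K p.1 * b) ∂(P.prod P) := by
    refine integral_mono (i2.sub i1) iU fun p => ?_
    simp only
    rw [← mul_sub, ← Finset.mul_sum]
    have h3 := (le_abs_self _).trans (hb p.1 p.2)
    have := mul_le_mul_of_nonneg_left h3 (hZ0 p.1)
    linarith
  refine h2.trans ?_
  rw [int_fst μ (fun J : E → ℝ => 4 * ∑ e ∈ DB m, Zf h g K J * |J (st x e)| + Zf h g K J * b),
    integral_add iU0 (iZ.mul_const b), integral_mul_const, hZ1, one_mul,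
    integral_const_mul, integral_finsetSum _ fun e _ => hJi (st x e),
    Finset.sum_congr rfl hval, Finset.sum_const, nsmul_eq_mul]
  have h3 : ((DB m).card : ℝ) ≤ 4 * (m + 1) := by
    have := card_DB m
    have h4 : ((DB m).card : ℝ) ≤ ((4 * (m + 1) : ℕ) : ℝ) := by exact_mod_cast this
    push_cast at h4
    exact h4
  have h4 : 0 ≤ MU μ := MU_nonneg
  nlinarith


lemma psi_le' (hμ : Integrable (fun x : ℝ => x) μ) (hg : Tl μ N g) (hΦ : W0 μ n N Φ) {k : V}
    (hk : k ∈ pos n) (J : E → ℝ) : |Psi μ N g Φ k J| ≤ RR μ N := by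
  have := psi_le hμ hg hΦ hk J
  rw [card_blk] at this
  unfold RR
  linarith

lemma step1 (hN : 1 ≤ N) (hμ : Integrable (fun x : ℝ => x) μ) (hg : Tl μ N g)
    (hΦ : W0 μ n N Φ) (h0 : 0 ≤ h) {t s : ℝ} (ht : 0 < t) (hs : 0 < s) {r l : ℕ}
    (hrl : r ≤ l) {j : V} {K : Finset V} (hKS : K ⊆ SP l j) {k : V} (hkS : k ∈ SP l j)
    (hkn : k ∈ pos n) (hk : k ∉ K) :
    ∫ J, g k J * Φ J ∂(infinitePi fun _ : E => μ) - er μ N g Φ h t s r l k ≤
      ∫ J, Zf h g K J * (g k J * Φ J) ∂(infinitePi fun _ : E => μ) := by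
  classical
  set P := infinitePi fun _ : E => μ with hP
  have hR := psi_le' hμ hg hΦ hkn
  have hm := psi_meas hg hΦ k
  have e1 := psi_eq (h := h) hN hg hΦ h0 hk
  have e2 := psi_eq (h := h) hN hg hΦ h0 (K := ∅) (Finset.notMem_empty k)
  simp only [Zf_empty, one_mul] at e2
  rw [e1, e2]
  have hd1 : Dep (reg N l k) (Zf h g K) := Zf_dep hg.dep fun k' hk' => SP_reg hkS (hKS hk')
  have e3 := CE_mul μ hm hR (Zmeas hg K) (Zb hg h0 K) hd1
  have e4 := CE_mul μ hm hR (u := fun _ => 1) measurable_const (D := 1)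
    (fun _ => by simp) (I := reg N l k) (fun _ _ _ => rfl)
  simp only [mul_one] at e4
  have e5 : ∫ J, Zf h g K J * Psi μ N g Φ k J ∂P =
      ∫ J, Zf h g K J * CE μ (reg N l k) (Psi μ N g Φ k) J ∂P := by
    have a1 : ∀ J, Zf h g K J * Psi μ N g Φ k J = Psi μ N g Φ k J * Zf h g K J :=
      fun J => mul_comm _ _
    have a2 : ∀ J, Zf h g K J * CE μ (reg N l k) (Psi μ N g Φ k) J =
      CE μ (reg N l k) (Psi μ N g Φ k) J * Zf h g K J := fun J => mul_comm _ _
    simp only [a1, a2]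
    exact e3.symm
  rw [e5, ← e4]
  set f := CE μ (reg N l k) (Psi μ N g Φ k) with hf
  have hfm : Measurable f := CE_meas μ hm _
  have hfR : ∀ J, |f J| ≤ RR μ N := CE_le μ hR _
  set K1 := K.filter fun j => j ∈ nb r k with hK1
  set K2 := K.filter fun j => j ∉ nb r k with hK2
  have hKK : K = K1 ∪ K2 := (Finset.filter_union_filter_not_eq _ _).symm
  have hKd : Disjoint K1 K2 := Finset.disjoint_filter_filter_not _ _ _
  have hK1c : K1.card ≤ (2 * r + 1) ^ 2 := by
    rw [← card_nb r k]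
    exact Finset.card_le_card fun j hj => (Finset.mem_filter.1 hj).2
  have hKc : K.card ≤ l ^ 2 := by
    refine (Finset.card_le_card hKS).trans (Finset.card_image_le.trans (card_pos l).le)
  have e6 := decouple1 μ (blk_disj hN) hg.dep hg.meas hg.le hg.mean h0 hfm hfR
    (I := reg N r k) hKK hKd
    (fun j' hj => by
      have h2 := (Finset.mem_filter.1 hj).2
      unfold reg
      exact Set.subset_biUnion_of_mem (u := fun j => ((blk N j : Finset E) : Set E)) h2)
    (fun j' hj => by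
      have h2 := (Finset.mem_filter.1 hj).2
      unfold reg
      rw [Set.disjoint_iUnion₂_right]
      intro i hi
      exact blk_disj hN (fun hc => h2 (hc ▸ hi))) ht
  have e7 := CE_loc μ hm hR (reg_mono (N := N) hrl k) hs
  have e8 : t / 2 * (1 + h ^ 2) ^ K.card ≤ t / 2 * (1 + h ^ 2) ^ (l ^ 2) :=
    mul_le_mul_of_nonneg_left (pow_le_pow_right₀ (by nlinarith) hKc) (by linarith)
  have hRp := RR_pos (μ := μ) (N := N)
  have e9 : ((1 + h) ^ K1.card - 1) * RR μ N ≤ ((1 + h) ^ ((2 * r + 1) ^ 2) - 1) * RR μ N := by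
    refine mul_le_mul_of_nonneg_right ?_ hRp.le
    have := pow_le_pow_right₀ (by linarith : (1 : ℝ) ≤ 1 + h) hK1c
    linarith
  have e10 : RR μ N / t * ∫ p, |f p.1 - f (patch (reg N r k)ᶜ p.1 p.2)| ∂(P.prod P) ≤
      RR μ N / t * (s + 1 / s * (En μ (reg N l k) (Psi μ N g Φ k) -
        En μ (reg N r k) (Psi μ N g Φ k))) :=
    mul_le_mul_of_nonneg_left e7 (by positivity)
  have e11 := (abs_le.1 e6).1
  unfold er
  linarith

/-- summing over the blocks of a superblock -/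
lemma step2 (hN : 1 ≤ N) (hμ : Integrable (fun x : ℝ => x) μ) (hg : Tl μ N g)
    (hΦ : W0 μ n N Φ) (h0 : 0 ≤ h) {t s : ℝ} (ht : 0 < t) (hs : 0 < s) {r l : ℕ}
    (hrl : r ≤ l) {j : V} (hS : SP l j ⊆ pos n) {K : Finset V} (hKS : K ⊆ SP l j) :
    h * ∑ k ∈ K, (∫ J, g k J * Φ J ∂(infinitePi fun _ : E => μ) - er μ N g Φ h t s r l k) ≤
      ∫ J, Zf h g K J * Φ J ∂(infinitePi fun _ : E => μ) -
        ∫ J, Φ J ∂(infinitePi fun _ : E => μ) := by
  classical
  induction K using Finset.induction_on with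
  | empty => simp [Zf]
  | insert k K hk ih =>
    have hK' : K ⊆ SP l j := (Finset.subset_insert k K).trans hKS
    have hkS : k ∈ SP l j := hKS (Finset.mem_insert_self k K)
    have ih' := ih hK'
    have e1 := step1 hN hμ hg hΦ h0 ht hs hrl hK' hkS (hS hkS) hk
    have hi1 : Integrable (fun J => Zf h g K J * Φ J) (infinitePi fun _ : E => μ) :=
      bi (Zmeas hg K) (Zb hg h0 K) hΦ.int
    have hi2 : Integrable (fun J => Zf h g K J * (g k J * Φ J)) (infinitePi fun _ : E => μ) :=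
      bi (Zmeas hg K) (Zb hg h0 K) (bi (hg.meas k) (hg.le k) hΦ.int)
    have e2 : ∫ J, Zf h g (insert k K) J * Φ J ∂(infinitePi fun _ : E => μ) =
        ∫ J, Zf h g K J * Φ J ∂(infinitePi fun _ : E => μ) +
          h * ∫ J, Zf h g K J * (g k J * Φ J) ∂(infinitePi fun _ : E => μ) := by
      rw [← integral_const_mul, ← integral_add hi1 (hi2.const_mul h)]
      refine integral_congr_ae (Eventually.of_forall fun J => ?_)
      simp only
      rw [Zf_insert hk]
      ring
    rw [e2, Finset.sum_insert hk]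
    have e3 := mul_le_mul_of_nonneg_left e1 h0
    rw [mul_add]
    linarith

/-- the estimate for one superblock -/
lemma step3 (hN : 1 ≤ N) (hμ : Integrable (fun x : ℝ => x) μ) (hg : Tl μ N g)
    {β : ℕ → V → ℝ} (hΦ : Wn μ n N Φ β) (h0 : 0 ≤ h) (h1 : h ≤ 1) {t s : ℝ} (ht : 0 < t) (hs : 0 < s) {r l : ℕ}
    (hrl : r ≤ l) {j : V} (hj : ∀ i, 0 ≤ j i ∧ (l : ℤ) * j i + l ≤ n) :
    h * ∑ k ∈ SP l j, (∫ J, g k J * Φ J ∂(infinitePi fun _ : E => μ) -
      er μ N g Φ h t s r l k) ≤ 16 * (l * N + 1) * MU μ + β l j := by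
  have hS : SP l j ⊆ pos n := by
    intro k hk
    rw [mem_pos]
    intro i
    have h2 := mem_SP hk i
    have h3 := hj i
    have h4 : 0 ≤ (l : ℤ) * j i := mul_nonneg (Nat.cast_nonneg _) h3.1
    constructor <;> linarith [h2.1, h2.2, h3.2]
  have e1 := step2 hN hμ hg hΦ.toW0 h0 ht hs hrl hS (K := SP l j) le_rfl
  have e2 := upper1 hN hμ hg hΦ.toW0 h0 h1 (x := nk (l * N) j) (m := l * N) (hΦ.bdry l j hj)
    (K := SP l j) (fun k hk => SP_blk hk) (fun k hk e he => SP_DB hk he)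
  push_cast at e2
  exact e1.trans e2


end Pool.Agent.Helper24.NZ
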