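import Pool.Agent.Helper24.NZ.A

/-!
# The main estimate for one window
-/

set_option autoImplicit false
set_option linter.unusedSectionVars false

open MeasureTheory Measure Filter Topology

namespace Pool.Agent.Helper24.NZ

open Pool.Agent.K3h93.EA
open Pool.Agent.K3h93.EF hiding psi_eq psi_le psi_meas upper1 psi_le' step1 step2 step3 scale_est main_est main_abs

variable {μ : Measure ℝ} [IsProbabilityMeasure μ]

/-- the estimate for one scale -/
lemma scale_est {N n : ℕ} {g : V → (E → ℝ) → ℝ} {Φ : (E → ℝ) → ℝ} (hN : 1 ≤ N)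
    (hμ : Integrable (fun x : ℝ => x) μ) (hg : Tl μ N g) {β : ℕ → V → ℝ} (hΦ : Wn μ n N Φ β) {t s : ℝ}
    (ht : 0 < t) (hs : 0 < s) {H r l q : ℕ} (hH : 1 ≤ H) (hHl : H ≤ l) (hrl : r ≤ l)
    (hn : n = q * l) {ε : ℝ}
    (hε : ((1 + (H : ℝ) / (l : ℝ)) ^ ((2 * r + 1) ^ 2) - 1) * RR μ N ≤ ε) :
    ∑ k ∈ pos n, ∫ J, g k J * Φ J ∂(infinitePi fun _ : E => μ) ≤
      (n : ℝ) ^ 2 * (16 * (N + 1) * MU μ / H + t / 2 * Real.exp (H ^ 2) + RR μ N / t * s + ε) +
        RR μ N / t * (1 / s) * ∑ k ∈ pos n, (En μ (reg N l k) (Psi μ N g Φ k) -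
          En μ (reg N r k) (Psi μ N g Φ k)) + (l : ℝ) / H * ∑ j ∈ pos q, β l j := by
  have hl1 : 1 ≤ l := hH.trans hHl
  have hl0 : (0 : ℝ) < l := by exact_mod_cast hl1
  have hH0 : (0 : ℝ) < H := by exact_mod_cast hH
  set h : ℝ := (H : ℝ) / l with hh
  have h0 : 0 ≤ h := by positivity
  have h1 : h ≤ 1 := by rw [hh, div_le_one hl0]; exact_mod_cast hHl
  have hM := MU_nonneg (μ := μ)
  have hRp := RR_pos (μ := μ) (N := N)
  -- sum over superblocks
  have e1 : h * ∑ k ∈ pos n, (∫ J, g k J * Φ J ∂(infinitePi fun _ : E => μ) -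
      er μ N g Φ h t s r l k) ≤ (q : ℝ) ^ 2 * (16 * (l * N + 1) * MU μ) +
        ∑ j ∈ pos q, β l j := by
    rw [hn, sum_pos_mul q l hl1, Finset.mul_sum]
    have h2 : ∀ j ∈ pos q, h * ∑ k ∈ SP l j, (∫ J, g k J * Φ J ∂(infinitePi fun _ : E => μ) -
        er μ N g Φ h t s r l k) ≤ 16 * (l * N + 1) * MU μ + β l j := by
      intro j hj
      refine step3 hN hμ hg hΦ h0 h1 ht hs hrl fun i => ?_
      rw [mem_pos] at hj
      have h3 := hj i
      refine ⟨h3.1, ?_⟩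
      rw [hn]
      push_cast
      have h4 : (l : ℤ) * (j i + 1) ≤ l * q :=
        mul_le_mul_of_nonneg_left (by omega) (Nat.cast_nonneg _)
      linarith
    refine (Finset.sum_le_sum h2).trans (le_of_eq ?_)
    rw [Finset.sum_add_distrib, Finset.sum_const, card_pos, nsmul_eq_mul]
    push_cast
    ring
  rw [Finset.sum_sub_distrib] at e1
  set X := ∑ k ∈ pos n, ∫ J, g k J * Φ J ∂(infinitePi fun _ : E => μ) with hX
  -- the errors
  have e2 : (1 + h ^ 2) ^ (l ^ 2) ≤ Real.exp (H ^ 2) := by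
    have h1 : 1 + h ^ 2 ≤ Real.exp (h ^ 2) := by
      have := Real.add_one_le_exp (h ^ 2)
      linarith
    have h2 : (1 + h ^ 2) ^ (l ^ 2) ≤ Real.exp (h ^ 2) ^ (l ^ 2) :=
      pow_le_pow_left₀ (by positivity) h1 _
    refine h2.trans ?_
    rw [← Real.exp_nat_mul]
    refine Real.exp_le_exp.2 ?_
    push_cast
    rw [hh, div_pow]
    field_simp
    exact le_rfl
  set Y := ∑ k ∈ pos n, (En μ (reg N l k) (Psi μ N g Φ k) -
          En μ (reg N r k) (Psi μ N g Φ k)) with hY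
  have e3 : ∑ k ∈ pos n, er μ N g Φ h t s r l k ≤
      (n : ℝ) ^ 2 * (t / 2 * Real.exp (H ^ 2) + RR μ N / t * s + ε) +
        RR μ N / t * (1 / s) * Y := by
    have h2 : ∀ k ∈ pos n, er μ N g Φ h t s r l k ≤
        (t / 2 * Real.exp (H ^ 2) + RR μ N / t * s + ε) +
          RR μ N / t * (1 / s) * (En μ (reg N l k) (Psi μ N g Φ k) -
            En μ (reg N r k) (Psi μ N g Φ k)) := by
      intro k _
      unfold er
      have h3 : t / 2 * (1 + h ^ 2) ^ (l ^ 2) ≤ t / 2 * Real.exp (H ^ 2) :=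
        mul_le_mul_of_nonneg_left e2 (by linarith)
      have h4 : RR μ N / t * (s + 1 / s * (En μ (reg N l k) (Psi μ N g Φ k) -
          En μ (reg N r k) (Psi μ N g Φ k))) = RR μ N / t * s +
            RR μ N / t * (1 / s) * (En μ (reg N l k) (Psi μ N g Φ k) -
              En μ (reg N r k) (Psi μ N g Φ k)) := by ring
      rw [h4]
      linarith
    refine (Finset.sum_le_sum h2).trans (le_of_eq ?_)
    rw [Finset.sum_add_distrib, Finset.sum_const, card_pos, nsmul_eq_mul, ← Finset.mul_sum, ← hY]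
    push_cast
    ring
  -- the upper bound
  have e4 : X - ∑ k ∈ pos n, er μ N g Φ h t s r l k ≤
      (n : ℝ) ^ 2 * (16 * (N + 1) * MU μ / H) + (l : ℝ) / H * ∑ j ∈ pos q, β l j := by
    have h2 : (q : ℝ) ^ 2 * (16 * (l * N + 1) * MU μ) ≤ (q : ℝ) ^ 2 * (l * (16 * (N + 1) * MU μ)) := by
      refine mul_le_mul_of_nonneg_left ?_ (sq_nonneg _)
      have h1 : (1 : ℝ) ≤ l := by exact_mod_cast hl1
      have h3 : (l : ℝ) * N + 1 ≤ l * (N + 1) := by linarith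
      nlinarith
    have h3 : h * ((n : ℝ) ^ 2 * (16 * (N + 1) * MU μ / H)) =
        (q : ℝ) ^ 2 * (l * (16 * (N + 1) * MU μ)) := by
      rw [hn, hh]
      push_cast
      field_simp
    have h4 := e1.trans (add_le_add h2 le_rfl)
    rw [← h3] at h4
    have h5 : 0 < h := by positivity
    refine le_of_mul_le_mul_left (h4.trans (le_of_eq ?_)) h5
    have h6 : h * ((l : ℝ) / H * ∑ j ∈ pos q, β l j) = ∑ j ∈ pos q, β l j := by
      rw [hh]
      field_simp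
    have h7 := mul_add h ((n : ℝ) ^ 2 * (16 * (N + 1) * MU μ / H)) ((l : ℝ) / H * ∑ j ∈ pos q, β l j)
    rw [h7, h6]
  linarith


/-- The main estimate, with frozen couplings. -/
lemma main_est {N : ℕ} (hN : 1 ≤ N) (hμ : Integrable (fun x : ℝ => x) μ) {ε : ℝ} (hε : 0 < ε) :
    ∃ (n K H : ℕ) (l q : ℕ → ℕ), 1 ≤ n ∧ 1 ≤ K ∧ 1 ≤ H ∧ (∀ i, i < K → 1 ≤ l i ∧ n = q i * l i) ∧
      16 * (N + 1) * MU μ / H ≤ ε ∧
      ∀ (Φ : (E → ℝ) → ℝ) (g : V → (E → ℝ) → ℝ) (β : ℕ → V → ℝ), Wn μ n N Φ β → Tl μ N g →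
      ∑ k ∈ pos n, ∫ J, g k J * Φ J ∂(infinitePi fun _ : E => μ) ≤ ε * (n : ℝ) ^ 2 +
        1 / K * ∑ i ∈ Finset.range K, (l i : ℝ) / H * ∑ j ∈ pos (q i), β (l i) j := by
  have hM := MU_nonneg (μ := μ)
  have hRp := RR_pos (μ := μ) (N := N)
  set R := RR μ N with hR
  obtain ⟨H, hH⟩ := exists_nat_ge (16 * (N + 1) * MU μ / (ε / 5) + 1)
  have hH1 : 1 ≤ H := by
    have h1 : 0 ≤ 16 * ((N : ℝ) + 1) * MU μ / (ε / 5) := by positivity
    have h2 : (1 : ℝ) ≤ H := by linarith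
    exact_mod_cast h2
  have hH0 : (0 : ℝ) < H := by exact_mod_cast hH1
  have a1 : 16 * (N + 1) * MU μ / H ≤ ε / 5 := by
    rw [div_le_iff₀ hH0]
    have h1 : 16 * ((N : ℝ) + 1) * MU μ / (ε / 5) ≤ H := by linarith
    rw [div_le_iff₀ (by linarith)] at h1
    linarith
  set t : ℝ := 2 * ε / (5 * Real.exp (H ^ 2)) with ht
  have ht0 : 0 < t := by positivity
  have a2 : t / 2 * Real.exp (H ^ 2) = ε / 5 := by
    rw [ht]
    have := Real.exp_pos ((H : ℝ) ^ 2)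
    field_simp
  set s : ℝ := t * ε / (5 * R) with hs
  have hs0 : 0 < s := by positivity
  have a3 : R / t * s = ε / 5 := by
    rw [hs]
    field_simp
  obtain ⟨K, hK⟩ := exists_nat_ge (R / t * (1 / s) * R ^ 2 / (ε / 5) + 1)
  have hK1 : 1 ≤ K := by
    have h1 : 0 ≤ R / t * (1 / s) * R ^ 2 / (ε / 5) := by positivity
    have h2 : (1 : ℝ) ≤ K := by linarith
    exact_mod_cast h2
  have hK0 : (0 : ℝ) < K := by exact_mod_cast hK1
  have a4 : R / t * (1 / s) * (R ^ 2 / K) ≤ ε / 5 := by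
    have h1 : R / t * (1 / s) * R ^ 2 / (ε / 5) ≤ K := by linarith
    rw [div_le_iff₀ (by linarith)] at h1
    rw [← mul_div_assoc, div_le_iff₀ hK0]
    linarith
  choose! q hq1 hq2 hq3 using exists_q H (R := R) (ε := ε / 5) (by linarith)
  set L : ℕ → ℕ := fun i => Nat.rec 1 (fun _ a => a * q a) i with hL
  have hL0 : L 0 = 1 := rfl
  have hLs : ∀ i, L (i + 1) = L i * q (L i) := fun i => rfl
  have hL1 : ∀ i, 1 ≤ L i := by
    intro i
    induction i with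
    | zero => exact le_of_eq hL0.symm
    | succ i ih =>
      rw [hLs]
      exact Nat.mul_pos ih (hq1 _ ih)
  have hLd : ∀ i j, i ≤ j → L i ∣ L j := by
    intro i j hij
    induction j, hij using Nat.le_induction with
    | base => exact dvd_rfl
    | succ j _ ih => exact ih.trans ⟨_, hLs j⟩
  have hLm : ∀ i, L i ≤ L (i + 1) := fun i => by
    rw [hLs]
    exact Nat.le_mul_of_pos_right _ (hq1 _ (hL1 i))
  have hdiv : ∀ i, i < K → L K = L K / L (i + 1) * L (i + 1) := fun i hi =>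
    (Nat.div_mul_cancel (hLd (i + 1) K hi)).symm
  refine ⟨L K, K, H, fun i => L (i + 1), fun i => L K / L (i + 1), hL1 K, hK1, hH1,
    fun i hi => ⟨hL1 (i + 1), hdiv i hi⟩, a1.trans (by linarith), fun Φ g β hΦ hg => ?_⟩
  set n := L K with hn
  set F : ℕ → ℝ := fun i => ∑ k ∈ pos n, En μ (reg N (L i) k) (Psi μ N g Φ k) with hF
  have hF0 : 0 ≤ F 0 := Finset.sum_nonneg fun k _ => En_nonneg μ _
  have hFK : F K ≤ (n : ℝ) ^ 2 * R ^ 2 := by
    refine (Finset.sum_le_sum fun k hk => En_le μ (psi_meas hg hΦ.toW0 k)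
      (psi_le' hμ hg hΦ.toW0 hk) (reg N (L K) k)).trans (le_of_eq ?_)
    rw [Finset.sum_const, card_pos, nsmul_eq_mul]
    push_cast
    rfl
  set X := ∑ k ∈ pos n, ∫ J, g k J * Φ J ∂(infinitePi fun _ : E => μ) with hX
  set Y : ℕ → ℝ := fun i => (L (i + 1) : ℝ) / H * ∑ j ∈ pos (n / L (i + 1)), β (L (i + 1)) j with hY
  have e0 : ∀ i ∈ Finset.range K, X ≤ (n : ℝ) ^ 2 * (16 * (N + 1) * MU μ / H + ε / 5 + ε / 5 + ε / 5) +
      R / t * (1 / s) * (F (i + 1) - F i) + Y i := by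
    intro i hi
    have hiK : i < K := Finset.mem_range.1 hi
    have e1 := scale_est (H := H) (r := L i) (l := L (i + 1)) (q := n / L (i + 1)) (ε := ε / 5)
      hN hμ hg hΦ
      ht0 hs0 hH1 (by rw [hLs]; exact hq2 _ (hL1 i)) (hLm i) (hdiv i hiK)
      (by
        have := hq3 (L i) (hL1 i)
        rw [hLs]
        exact this)
    rw [a2, ← hR, a3, Finset.sum_sub_distrib] at e1
    exact e1
  have e1 := Finset.sum_le_sum e0
  rw [Finset.sum_const, Finset.card_range, nsmul_eq_mul, Finset.sum_add_distrib,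
    Finset.sum_add_distrib, Finset.sum_const, Finset.card_range, nsmul_eq_mul, ← Finset.mul_sum,
    Finset.sum_range_sub] at e1
  have e2 : R / t * (1 / s) * (F K - F 0) ≤ K * ((n : ℝ) ^ 2 * (ε / 5)) := by
    have h1 : R / t * (1 / s) * (F K - F 0) ≤
        R / t * (1 / s) * ((n : ℝ) ^ 2 * R ^ 2) :=
      mul_le_mul_of_nonneg_left (by linarith) (by positivity)
    have h2 : R / t * (1 / s) * ((n : ℝ) ^ 2 * R ^ 2) =
      K * ((n : ℝ) ^ 2 * (R / t * (1 / s) * (R ^ 2 / K))) := by field_simp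
    rw [h2] at h1
    exact h1.trans (mul_le_mul_of_nonneg_left (mul_le_mul_of_nonneg_left a4 (sq_nonneg _)) hK0.le)
  have e3 : (n : ℝ) ^ 2 * (16 * (N + 1) * MU μ / H + ε / 5 + ε / 5 + ε / 5) ≤
      (n : ℝ) ^ 2 * (ε / 5 + ε / 5 + ε / 5 + ε / 5) :=
    mul_le_mul_of_nonneg_left (by linarith) (sq_nonneg _)
  have e4 := mul_le_mul_of_nonneg_left e3 hK0.le
  have e5 : (K : ℝ) * X ≤ K * (ε * (n : ℝ) ^ 2) + ∑ i ∈ Finset.range K, Y i := by
    have : (K : ℝ) * (ε * (n : ℝ) ^ 2) = K * ((n : ℝ) ^ 2 * (ε / 5 + ε / 5 + ε / 5 + ε / 5)) +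
      K * ((n : ℝ) ^ 2 * (ε / 5)) := by ring
    linarith
  have e6 : (K : ℝ) * (ε * (n : ℝ) ^ 2 + 1 / K * ∑ i ∈ Finset.range K, Y i) =
      K * (ε * (n : ℝ) ^ 2) + ∑ i ∈ Finset.range K, Y i := by
    field_simp
  rw [← e6] at e5
  exact le_of_mul_le_mul_left e5 hK0

/-- The main estimate with absolute values. -/
lemma main_abs {N : ℕ} (hN : 1 ≤ N) (hμ : Integrable (fun x : ℝ => x) μ) {ε : ℝ} (hε : 0 < ε) :
    ∃ (n K H : ℕ) (l q : ℕ → ℕ), 1 ≤ n ∧ 1 ≤ K ∧ 1 ≤ H ∧ (∀ i, i < K → 1 ≤ l i ∧ n = q i * l i) ∧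
      16 * (N + 1) * MU μ / H ≤ ε ∧
      ∀ (Φ : (E → ℝ) → ℝ) (g : V → (E → ℝ) → ℝ) (β : ℕ → V → ℝ), Wn μ n N Φ β → Tl μ N g →
      ∑ k ∈ pos n, |∫ J, g k J * Φ J ∂(infinitePi fun _ : E => μ)| ≤ ε * (n : ℝ) ^ 2 +
        1 / K * ∑ i ∈ Finset.range K, (l i : ℝ) / H * ∑ j ∈ pos (q i), β (l i) j := by
  obtain ⟨n, K, H, l, q, hn, hK, hH, hlq, hHε, hmain⟩ := main_est hN hμ hε
  refine ⟨n, K, H, l, q, hn, hK, hH, hlq, hHε, fun Φ g β hΦ hg => ?_⟩
  set c : V → ℝ := fun k => ∫ J, g k J * Φ J ∂(infinitePi fun _ : E => μ) with hc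
  have hs : ∀ x : ℝ, ∃ σ : ℝ, |σ| ≤ 1 ∧ σ * x = |x| := fun x => by
    rcases le_total 0 x with h | h
    · exact ⟨1, by simp, by rw [one_mul, abs_of_nonneg h]⟩
    · exact ⟨-1, by simp, by rw [abs_of_nonpos h]; ring⟩
  choose σ hσ1 hσ2 using hs
  have hg' : Tl μ N (fun k J => σ (c k) * g k J) := by
    refine ⟨fun k J J' hJ => ?_, fun k => measurable_const.mul (hg.meas k), fun k J => ?_,
      fun k => ?_⟩
    · simp only [hg.dep k J J' hJ]
    · rw [abs_mul]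
      have := hσ1 (c k)
      have := hg.le k J
      nlinarith [abs_nonneg (σ (c k)), abs_nonneg (g k J)]
    · rw [integral_const_mul, hg.mean, mul_zero]
  have h1 := hmain Φ _ β hΦ hg'
  refine le_trans (le_of_eq ?_) h1
  refine Finset.sum_congr rfl fun k _ => ?_
  have h2 : ∀ J, σ (c k) * g k J * Φ J = σ (c k) * (g k J * Φ J) := fun J => by ring
  simp only [h2]
  rw [integral_const_mul]
  exact (hσ2 (c k)).symm

end Pool.Agent.Helper24.NZ
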