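import Pool.Agent.Helper24.NZ.B
import Pool.Graph.R_pool_sql_team_seeded_5cf16337.K3h93.EF.WinEst

/-!
# Frozen couplings: the estimate for the spins in a window
-/

set_option autoImplicit false
set_option linter.unusedSectionVars false

open MeasureTheory Measure Filter Topology

namespace Pool.Agent.Helper24.NZ

open Pool.Agent.K3h93.EA
open Pool.Agent.K3h93.EF hiding psi_eq psi_le psi_meas upper1 psi_le' step1 step2 step3 scale_est main_est main_abs

variable {μ : Measure ℝ} [IsProbabilityMeasure μ]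

/-- freezing the couplings in `R` -/
noncomputable def frz (R : Set E) (ω : E → ℝ) (J : E → ℝ) : E → ℝ := patch R J ω

lemma frz_mem {R : Set E} {ω J : E → ℝ} {e : E} (he : e ∈ R) : frz R ω J e = ω e :=
  patch_mem he _ _

lemma frz_not {R : Set E} {ω J : E → ℝ} {e : E} (he : e ∉ R) : frz R ω J e = J e :=
  patch_not he _ _

lemma frz_meas (R : Set E) (ω : E → ℝ) : Measurable (frz R ω) :=
  (measurable_patch _).comp (measurable_id.prodMk measurable_const)

lemma frz_meas2 (R : Set E) : Measurable fun p : (E → ℝ) × (E → ℝ) => frz R p.1 p.2 :=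
  (measurable_patch R).comp (measurable_snd.prodMk measurable_fst)

lemma frz_abs (R : Set E) (ω J : E → ℝ) (e : E) : |frz R ω J e| ≤ |J e| + |ω e| := by
  by_cases he : e ∈ R
  · rw [frz_mem he]; linarith [abs_nonneg (J e)]
  · rw [frz_not he]; linarith [abs_nonneg (ω e)]

lemma frz_sub (R : Set E) (ω J J' : E → ℝ) (e : E) :
    |frz R ω J' e - frz R ω J e| ≤ |J' e - J e| := by
  by_cases he : e ∈ R
  · rw [frz_mem he, frz_mem he, sub_self, abs_zero]; exact abs_nonneg _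
  · rw [frz_not he, frz_not he]

lemma frz_eq {R : Set E} {ω J J' : E → ℝ} {e : E} (h : J' e = J e) :
    frz R ω J' e = frz R ω J e := by
  by_cases he : e ∈ R
  · rw [frz_mem he, frz_mem he]
  · rw [frz_not he, frz_not he, h]

lemma frz_upd {R : Set E} {ω J : E → ℝ} {e : E} (he : e ∉ R) (t : ℝ) :
    frz R ω (upd e J t) = upd e (frz R ω J) t := by
  funext e'
  by_cases h : e' = e
  · subst h
    rw [frz_not he, upd_self, upd_self]
  · rw [upd_ne h]
    exact frz_eq (upd_ne h _ _)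

variable {W : ℕ} {Φ Φ1 Φ2 : (E → ℝ) → ℝ} {G G1 G2 : (E → ℝ) → (V → ℝ) → Prop}
  {R : Set E} {ω : E → ℝ}

/-- the frozen function -/
noncomputable def FF (R : Set E) (ω : E → ℝ) (Φ : (E → ℝ) → ℝ) (J : E → ℝ) : ℝ := Φ (frz R ω J)

lemma FF_meas (hΦ : Measurable Φ) (R : Set E) (ω : E → ℝ) : Measurable (FF R ω Φ) :=
  hΦ.comp (frz_meas R ω)

lemma FF_lip (hv : View W Φ G) {F : Finset E} (hF : F ⊆ FB W) {J J' : E → ℝ}
    (hJ : ∀ e, e ∉ F → J' e = J e) : |FF R ω Φ J' - FF R ω Φ J| ≤ ∑ e ∈ F, |J' e - J e| :=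
  (hv.lip hF (J := frz R ω J) (J' := frz R ω J') fun e he => frz_eq (hJ e he)).trans
    (Finset.sum_le_sum fun e _ => frz_sub R ω J J' e)

lemma FF_diff (h1 : View W Φ1 G1) (h2 : View W Φ2 G2) {x : V} {m : ℕ}
    (hx : ∀ i, 0 ≤ x i ∧ x i + m ≤ W) {J J' : E → ℝ} (hJ : ∀ e, e ∉ SB x m → J' e = J e) :
    (FF R ω Φ1 J - FF R ω Φ2 J) - (FF R ω Φ1 J' - FF R ω Φ2 J') ≤
      4 * ∑ e ∈ DB m, |J (st x e)| + 4 * ∑ e ∈ DB m, |ω (st x e)| := by
  have h3 := h1.diff h2 hx (J := frz R ω J) (J' := frz R ω J') fun e he => frz_eq (hJ e he)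
  have h4 : ∑ e ∈ DB m, |frz R ω J (st x e)| ≤
      ∑ e ∈ DB m, (|J (st x e)| + |ω (st x e)|) :=
    Finset.sum_le_sum fun e _ => frz_abs R ω J _
  rw [Finset.sum_add_distrib] at h4
  unfold FF
  linarith

/-- the error from the frozen couplings -/
noncomputable def bet (N : ℕ) (ω : E → ℝ) (l : ℕ) (j : V) : ℝ :=
  4 * ∑ e ∈ DB (l * N), |ω (st (nk (l * N) j) e)|

lemma FF_win (hμ : Integrable (fun x : ℝ => x) μ)
    {n N : ℕ} (h1 : View (n * N) Φ1 G1) (h2 : View (n * N) Φ2 G2) (R : Set E) (ω : E → ℝ) :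
    Wn μ n N (NF (n * N) (FF R ω Φ1) (FF R ω Φ2)) (bet N ω) := by
  have hm : Measurable (NF (n * N) (FF R ω Φ1) (FF R ω Φ2)) := by
    unfold NF
    have hp : Measurable fun J : E → ℝ => patch ((FB (n * N) : Finset E) : Set E) J (fun _ => 0) :=
      (measurable_patch _).comp (measurable_id.prodMk measurable_const)
    exact ((FF_meas h1.meas R ω).sub (FF_meas h2.meas R ω)).sub
      (((FF_meas h1.meas R ω).comp hp).sub ((FF_meas h2.meas R ω).comp hp))
  refine ⟨⟨hm, ?_, ?_⟩, ?_⟩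
  · have iU : Integrable (fun J : E → ℝ => 2 * ∑ e ∈ FB (n * N), |J e|)
        (infinitePi fun _ : E => μ) :=
      (integrable_finsetSum _ fun e _ => (eval_int μ hμ e).abs).const_mul 2
    refine iU.mono' hm.aestronglyMeasurable (Eventually.of_forall fun J => ?_)
    rw [Real.norm_eq_abs]
    set J0 := patch ((FB (n * N) : Finset E) : Set E) J (fun _ => 0) with hJ0
    have hJ : ∀ e, e ∉ FB (n * N) → J0 e = J e := fun e he =>
      patch_not (fun h => he (Finset.mem_coe.1 h)) _ _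
    have a1 := FF_lip (R := R) (ω := ω) h1 le_rfl hJ
    have a2 := FF_lip (R := R) (ω := ω) h2 le_rfl hJ
    have a3 : ∑ e ∈ FB (n * N), |J0 e - J e| = ∑ e ∈ FB (n * N), |J e| :=
      Finset.sum_congr rfl fun e he => by
        rw [hJ0, patch_mem (Finset.mem_coe.2 he), zero_sub, abs_neg]
    rw [a3] at a1 a2
    have e1 : NF (n * N) (FF R ω Φ1) (FF R ω Φ2) J =
        (FF R ω Φ2 J0 - FF R ω Φ2 J) - (FF R ω Φ1 J0 - FF R ω Φ1 J) := by
      unfold NF; ring
    rw [e1]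
    refine (abs_sub _ _).trans ?_
    linarith
  · intro k hk J y
    have hb : blk N k ⊆ FB (n * N) := blk_sub_FB (mem_pos.1 hk)
    have hb' : ((blk N k : Finset E) : Set E) ⊆ ((FB (n * N) : Finset E) : Set E) := by
      exact_mod_cast hb
    have hJ : ∀ e, e ∉ blk N k → patch ((blk N k : Finset E) : Set E) J y e = J e := fun e he =>
      patch_not (fun h => he (Finset.mem_coe.1 h)) _ _
    have a1 := FF_lip (R := R) (ω := ω) h1 hb hJ
    have a2 := FF_lip (R := R) (ω := ω) h2 hb hJ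
    have a3 : ∑ e ∈ blk N k, |patch ((blk N k : Finset E) : Set E) J y e - J e| =
        ∑ e ∈ blk N k, |y e - J e| :=
      Finset.sum_congr rfl fun e he => by rw [patch_mem (Finset.mem_coe.2 he)]
    rw [a3] at a1 a2
    have e1 : NF (n * N) (FF R ω Φ1) (FF R ω Φ2) (patch ((blk N k : Finset E) : Set E) J y) -
        NF (n * N) (FF R ω Φ1) (FF R ω Φ2) J =
        (FF R ω Φ1 (patch ((blk N k : Finset E) : Set E) J y) - FF R ω Φ1 J) -
          (FF R ω Φ2 (patch ((blk N k : Finset E) : Set E) J y) - FF R ω Φ2 J) := by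
      unfold NF
      rw [patch_patch hb']
      ring
    rw [e1]
    refine (abs_sub _ _).trans ?_
    linarith
  · intro l j hj J y
    set x := nk (l * N) j with hx
    set m := l * N with hm
    have hxm : ∀ i, 0 ≤ x i ∧ x i + m ≤ ((n * N : ℕ) : ℤ) := by
      intro i
      have h3 := hj i
      have hN0 : (0 : ℤ) ≤ N := Nat.cast_nonneg N
      have hl0 : (0 : ℤ) ≤ l := Nat.cast_nonneg l
      have e1 : x i = l * N * j i := by rw [hx, nk, hm]; push_cast; ring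
      rw [e1, hm]
      push_cast
      constructor
      · exact mul_nonneg (mul_nonneg hl0 hN0) h3.1
      · have h4 := mul_le_mul_of_nonneg_right h3.2 hN0
        nlinarith
    have hs := SB_sub hxm
    set J' := patch (SB x m) J y with hJ'
    have hJ : ∀ e, e ∉ SB x m → J' e = J e := fun e he => patch_not he _ _
    have a1 := FF_diff (R := R) (ω := ω) h1 h2 hxm hJ
    have a2 := FF_diff (R := R) (ω := ω) h2 h1 hxm hJ
    have e1 : NF (n * N) (FF R ω Φ1) (FF R ω Φ2) J - NF (n * N) (FF R ω Φ1) (FF R ω Φ2) J' =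
        (FF R ω Φ1 J - FF R ω Φ2 J) - (FF R ω Φ1 J' - FF R ω Φ2 J') := by
      unfold NF
      rw [hJ', patch_patch hs]
      ring
    have e2 : bet N ω l j = 4 * ∑ e ∈ DB m, |ω (st x e)| := rfl
    rw [e1, e2, abs_le]
    constructor <;> linarith

variable {e : E}

lemma FF_upd_sub (hv : View W Φ G) (he : e ∈ FB W) (heR : e ∉ R) (J : E → ℝ) (c t : ℝ)
    (h : ∃ s, G (frz R ω J) s ∧ bp s e = c) :
    FF R ω Φ J + (t - J e) * c ≤ FF R ω Φ (upd e J t) := by
  have h1 := hv.upd_sub he (frz R ω J) c t h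
  rw [frz_not heR] at h1
  unfold FF
  rw [frz_upd heR]
  exact h1

lemma FF_upd_lip (hv : View W Φ G) (he : e ∈ FB W) (heR : e ∉ R) (J : E → ℝ) (t t' : ℝ) :
    |FF R ω Φ (upd e J t) - FF R ω Φ (upd e J t')| ≤ |t - t'| := by
  unfold FF
  rw [frz_upd heR, frz_upd heR]
  exact hv.upd_lip he _ _ _

lemma FF_bridge (hv : View W Φ G) (he : e ∈ FB W) (heR : e ∉ R) {σ : (E → ℝ) → V → ℝ}
    (hσ : Measurable σ) (hσG : ∀ᵐ J ∂(infinitePi fun _ : E => μ), G (frz R ω J) (σ (frz R ω J)))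
    {φ : (E → ℝ) → ℝ} (hφ : Measurable φ) (hφ1 : ∀ J, |φ J| ≤ 1)
    {κ : ℝ × ℝ → ℝ} {C θ ε : ℝ} (hθ : 0 < θ) (hκm : Measurable κ)
    (hκ0 : ∀ p, 0 ≤ κ p) (hκC : ∀ p, κ p ≤ C) (hκθ : ∀ p, κ p ≠ 0 → θ ≤ |p.1 - p.2|)
    (hin : ∀ t, ∫ t', κ (t, t') ∂μ ≤ 1) (hε : 1 - ε ≤ ∫ p, κ p ∂(μ.prod μ))
    (hbt : ∀ c, ∫ p, Set.indicator {p : ℝ × ℝ | Btw c p} κ p ∂(μ.prod μ) ≤ ε) :
    |∫ J, φ J * bp (σ (frz R ω J)) e ∂(infinitePi fun _ : E => μ) -
      ∫ p, φ (upd e p.1 p.2.1) * (κ p.2 / (p.2.1 - p.2.2)) *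
        (FF R ω Φ (upd e p.1 p.2.1) - FF R ω Φ (upd e p.1 p.2.2)) ∂(TT μ)| ≤ 3 * ε := by
  have h1 := Pool.Agent.K3h93.EF.bridge (e := e) (B := fun J c => ∃ s, G (frz R ω J) s ∧ bp s e = c)
    (FF_meas hv.meas R ω)
    (fun J c h => by
      obtain ⟨s, hs, rfl⟩ := h
      exact (hv.spin _ _ hs).bp_cases e)
    (fun J => by
      obtain ⟨s, hs⟩ := hv.ex (frz R ω J)
      exact ⟨_, s, hs, rfl⟩)
    (FF_upd_sub hv he heR) (f := fun J => clp 1 (bp (σ (frz R ω J)) e))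
    ((clp_meas 1).comp ((bpm hσ e).comp (frz_meas R ω))) (fun J => clp_le zero_le_one)
    (by
      filter_upwards [hσG] with J hJ
      exact ⟨σ (frz R ω J), hJ, (bp_clp (hv.spin _ _ hJ) e).symm⟩)
    hφ hφ1 hθ hκm hκ0 hκC hκθ hin hε hbt
  have h2 : ∫ J, φ J * clp 1 (bp (σ (frz R ω J)) e) ∂(infinitePi fun _ : E => μ) =
      ∫ J, φ J * bp (σ (frz R ω J)) e ∂(infinitePi fun _ : E => μ) := by
    refine integral_congr_ae ?_
    filter_upwards [hσG] with J hJ
    rw [bp_clp (hv.spin _ _ hJ) e]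
  rwa [h2] at h1

end Pool.Agent.Helper24.NZ
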