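import Pool.Agent.Helper24.NZ.C

/-!
# Frozen couplings: the estimate for the spins in a window
-/

set_option autoImplicit false
set_option linter.unusedSectionVars false

open MeasureTheory Measure Filter Topology

namespace Pool.Agent.Helper24.NZ

open Pool.Agent.K3h93.EA
open Pool.Agent.K3h93.EF hiding psi_eq psi_le psi_meas upper1 psi_le' step1 step2 step3 scale_est main_est main_abs

variable {μ : Measure ℝ} [IsProbabilityMeasure μ]

/-- the total error from the frozen couplings -/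
noncomputable def BE (N K H : ℕ) (l q : ℕ → ℕ) (ω : E → ℝ) : ℝ :=
  1 / K * ∑ i ∈ Finset.range K, (l i : ℝ) / H * ∑ j ∈ pos (q i), bet N ω (l i) j

lemma bet_nonneg (N : ℕ) (ω : E → ℝ) (l : ℕ) (j : V) : 0 ≤ bet N ω l j := by
  unfold bet
  have : 0 ≤ ∑ e ∈ DB (l * N), |ω (st (nk (l * N) j) e)| :=
    Finset.sum_nonneg fun _ _ => abs_nonneg _
  linarith

lemma bet_int (hμ : Integrable (fun x : ℝ => x) μ) (N l : ℕ) (j : V) :
    Integrable (fun ω => bet N ω l j) (infinitePi fun _ : E => μ) :=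
  (integrable_finsetSum _ fun e _ => (eval_int μ hμ _).abs).const_mul 4

lemma bet_mean (hμ : Integrable (fun x : ℝ => x) μ) (N l : ℕ) (j : V) :
    ∫ ω, bet N ω l j ∂(infinitePi fun _ : E => μ) ≤ 16 * (l * N + 1) * MU μ := by
  unfold bet
  rw [integral_const_mul, integral_finsetSum _ fun e _ => (eval_int μ hμ _).abs,
    Finset.sum_congr rfl fun e _ => abs_eval (μ := μ) _, Finset.sum_const, nsmul_eq_mul]
  have h3 : ((DB (l * N)).card : ℝ) ≤ 4 * (l * N + 1) := by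
    have := card_DB (l * N)
    have h4 : ((DB (l * N)).card : ℝ) ≤ ((4 * (l * N + 1) : ℕ) : ℝ) := by exact_mod_cast this
    push_cast at h4
    exact h4
  have h4 : 0 ≤ MU μ := MU_nonneg
  nlinarith

lemma BE_nonneg (N K H : ℕ) (l q : ℕ → ℕ) (ω : E → ℝ) : 0 ≤ BE N K H l q ω := by
  unfold BE
  refine mul_nonneg (by positivity) (Finset.sum_nonneg fun i _ => mul_nonneg (by positivity)
    (Finset.sum_nonneg fun j _ => bet_nonneg _ _ _ _))

lemma BE_int (hμ : Integrable (fun x : ℝ => x) μ) (N K H : ℕ) (l q : ℕ → ℕ) :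
    Integrable (BE N K H l q) (infinitePi fun _ : E => μ) :=
  (integrable_finsetSum _ fun i _ => (integrable_finsetSum _ fun j _ =>
    bet_int hμ N (l i) j).const_mul _).const_mul _

lemma BE_mean (hμ : Integrable (fun x : ℝ => x) μ) {n N K H : ℕ} {l q : ℕ → ℕ} (hK : 1 ≤ K)
    (hH : 1 ≤ H) (hlq : ∀ i, i < K → 1 ≤ l i ∧ n = q i * l i) {ε : ℝ}
    (hε : 16 * (N + 1) * MU μ / H ≤ ε) :
    ∫ ω, BE N K H l q ω ∂(infinitePi fun _ : E => μ) ≤ ε * (n : ℝ) ^ 2 := by
  have hK0 : (0 : ℝ) < K := by exact_mod_cast hK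
  have hH0 : (0 : ℝ) < H := by exact_mod_cast hH
  have hM : 0 ≤ MU μ := MU_nonneg
  unfold BE
  rw [integral_const_mul, integral_finsetSum _ fun i _ => (integrable_finsetSum _ fun j _ =>
    bet_int hμ N (l i) j).const_mul _]
  have h1 : ∀ i ∈ Finset.range K, ∫ ω, (l i : ℝ) / H * ∑ j ∈ pos (q i), bet N ω (l i) j
      ∂(infinitePi fun _ : E => μ) ≤ ε * (n : ℝ) ^ 2 := by
    intro i hi
    obtain ⟨h2, h3⟩ := hlq i (Finset.mem_range.1 hi)
    have hl0 : (1 : ℝ) ≤ l i := by exact_mod_cast h2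
    rw [integral_const_mul, integral_finsetSum _ fun j _ => bet_int hμ N (l i) j]
    have h4 : ∑ j ∈ pos (q i), ∫ ω, bet N ω (l i) j ∂(infinitePi fun _ : E => μ) ≤
        (q i : ℝ) ^ 2 * (16 * (l i * N + 1) * MU μ) := by
      refine (Finset.sum_le_sum fun j _ => bet_mean hμ N (l i) j).trans (le_of_eq ?_)
      rw [Finset.sum_const, card_pos, nsmul_eq_mul]
      push_cast
      ring
    have h5 : (l i : ℝ) * N + 1 ≤ l i * (N + 1) := by linarith
    have h6 : (q i : ℝ) ^ 2 * (16 * (l i * N + 1) * MU μ) ≤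
        (q i : ℝ) ^ 2 * (16 * (l i * (N + 1)) * MU μ) := by
      refine mul_le_mul_of_nonneg_left ?_ (sq_nonneg _)
      exact mul_le_mul_of_nonneg_right (by linarith) hM
    have h7 : (l i : ℝ) / H * ((q i : ℝ) ^ 2 * (16 * (l i * (N + 1)) * MU μ)) =
        (16 * (N + 1) * MU μ / H) * (n : ℝ) ^ 2 := by
      rw [h3]
      push_cast
      field_simp
    refine (mul_le_mul_of_nonneg_left (h4.trans h6) (by positivity)).trans ?_
    rw [h7]
    exact mul_le_mul_of_nonneg_right hε (sq_nonneg _)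
  have h2 := Finset.sum_le_sum h1
  rw [Finset.sum_const, Finset.card_range, nsmul_eq_mul] at h2
  have h3 := mul_le_mul_of_nonneg_left h2 (by positivity : (0 : ℝ) ≤ 1 / K)
  refine h3.trans (le_of_eq ?_)
  field_simp

/-- **The estimate for the spins in a window with frozen couplings.** -/
lemma window_frz {N : ℕ} (hN : 1 ≤ N) (hμ : Integrable (fun x : ℝ => x) μ)
    (hat : ∀ x, μ {x} = 0) {ε : ℝ} (hε : 0 < ε) {e0 : E} (he0 : e0 ∈ blk N 0) :
    ∃ (n : ℕ) (B : (E → ℝ) → ℝ), 1 ≤ n ∧ (∀ ω, 0 ≤ B ω) ∧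
      Integrable B (infinitePi fun _ : E => μ) ∧
      ∫ ω, B ω ∂(infinitePi fun _ : E => μ) ≤ ε * (n : ℝ) ^ 2 ∧
      ∀ (Φ1 Φ2 : (E → ℝ) → ℝ) (G1 G2 : (E → ℝ) → (V → ℝ) → Prop),
      View (n * N) Φ1 G1 → View (n * N) Φ2 G2 → ∀ (R : Set E) (ω : E → ℝ)
      (σ1 σ2 : (E → ℝ) → V → ℝ), Measurable σ1 →
      Measurable σ2 → (∀ᵐ J ∂(infinitePi fun _ : E => μ), G1 (frz R ω J) (σ1 (frz R ω J))) →
      (∀ᵐ J ∂(infinitePi fun _ : E => μ), G2 (frz R ω J) (σ2 (frz R ω J))) →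
      ∀ φ : V → (E → ℝ) → ℝ, (∀ k, Measurable (φ k)) → (∀ k J, |φ k J| ≤ 1) →
      (∀ k, Dep (blk N k : Finset E) (φ k)) → (∀ k, st (nk N k) e0 ∈ R → ∀ J, φ k J = 0) →
      ∑ k ∈ pos n, |∫ J, φ k J * bp (σ1 (frz R ω J)) (st (nk N k) e0)
          ∂(infinitePi fun _ : E => μ) -
        ∫ J, φ k J * bp (σ2 (frz R ω J)) (st (nk N k) e0)
          ∂(infinitePi fun _ : E => μ)| ≤ ε * (n : ℝ) ^ 2 + B ω := by
  set P := infinitePi fun _ : E => μ with hP
  obtain ⟨κ, C, θ, hC, hθ, hκm, hκ0, hκC, hκθ, hin, hmass, hbt⟩ :=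
    exists_kernel hat (ε := ε / 12) (by linarith)
  set D : ℝ := C / θ with hD
  have hD0 : 0 < D := by positivity
  obtain ⟨n, K, H, l, q, hn, hK, hH, hlq, hHε, hmain⟩ :=
    main_abs hN hμ (ε := ε / (4 * D)) (by positivity)
  refine ⟨n, fun ω => 2 * D * BE N K H l q ω, hn, fun ω => mul_nonneg (by positivity)
    (BE_nonneg N K H l q ω), (BE_int hμ N K H l q).const_mul _, ?_,
    fun Φ1 Φ2 G1 G2 v1 v2 R ω σ1 σ2 hσ1 hσ2 hG1 hG2 φ hφm hφk1 hφkd hφR => ?_⟩
  · rw [integral_const_mul]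
    have h1 := mul_le_mul_of_nonneg_left (BE_mean hμ hK hH hlq hHε)
      (by linarith : (0 : ℝ) ≤ 2 * D)
    refine h1.trans ?_
    have h3 : 2 * D * (ε / (4 * D) * (n : ℝ) ^ 2) = ε / 2 * (n : ℝ) ^ 2 := by
      field_simp
      ring
    rw [h3]
    nlinarith [sq_nonneg (n : ℝ)]
  set χ : ℝ × ℝ → ℝ := fun p => κ p / (p.1 - p.2) with hχ
  have hχm : Measurable χ := hκm.div (by fun_prop)
  have hχD : ∀ p, |χ p| ≤ D := by
    intro p
    by_cases h0 : κ p = 0
    · simp only [hχ]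
      rw [h0, zero_div, abs_zero]
      exact hD0.le
    · have h1 := hκθ p h0
      simp only [hχ]
      rw [abs_div, abs_of_nonneg (hκ0 p), hD]
      exact div_le_div₀ hC.le (hκC p) hθ h1
  -- the local functions
  have hek : ∀ k, st (nk N k) e0 ∈ ((blk N k : Finset E) : Set E) := fun k =>
    Finset.mem_coe.2 ((blk_shift N k e0).1 he0)
  set g : V → (E → ℝ) → ℝ := fun k J => gt μ (st (nk N k) e0) (φ k) χ J / (2 * D) with hg
  have hTl : Tl μ N g := by
    refine ⟨fun k J J' hJ => ?_, fun k => (gt_meas (hφm k) hχm _).div_const _, fun k J => ?_,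
      fun k => ?_⟩
    · simp only [hg]
      rw [gt_dep (hφkd k) (hek k) J J' hJ]
    · simp only [hg]
      rw [abs_div, abs_of_pos (by linarith : (0 : ℝ) < 2 * D), div_le_one (by linarith)]
      exact gt_le (hφk1 k) hχD J
    · simp only [hg]
      rw [integral_div]
      have h1 := gt_repr (μ := μ) (hφm k) (hφk1 k) hχm hχD (Ψ := fun _ => 1) measurable_const
        (integrable_const _) (st (nk N k) e0)
      simp only [sub_self, mul_zero, mul_one, integral_zero] at h1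
      rw [← h1, zero_div]
  have hwin := FF_win hμ v1 v2 R ω
  have hm := hmain _ g _ hwin hTl
  -- one block
  have h1 : ∀ k ∈ pos n, |∫ J, φ k J * bp (σ1 (frz R ω J)) (st (nk N k) e0) ∂P -
        ∫ J, φ k J * bp (σ2 (frz R ω J)) (st (nk N k) e0) ∂P| ≤
      2 * D * |∫ J, g k J * NF (n * N) (FF R ω Φ1) (FF R ω Φ2) J ∂P| + ε / 2 := by
    intro k hk
    set e := st (nk N k) e0 with he
    by_cases heR : e ∈ R
    · have h0 := hφR k heR
      simp only [h0, zero_mul, integral_zero, sub_self, abs_zero]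
      positivity
    have heF : e ∈ FB (n * N) := blk_sub_FB (mem_pos.1 hk) (Finset.mem_coe.1 (hek k))
    have b1 := FF_bridge v1 heF heR hσ1 hG1 (hφm k) (hφk1 k) hθ hκm hκ0 hκC hκθ hin hmass hbt
    have b2 := FF_bridge v2 heF heR hσ2 hG2 (hφm k) (hφk1 k) hθ hκm hκ0 hκC hκθ hin hmass hbt
    have ib : ∀ {Φ : (E → ℝ) → ℝ} {G : (E → ℝ) → (V → ℝ) → Prop}, View (n * N) Φ G →
        Integrable (fun p : (E → ℝ) × (ℝ × ℝ) => φ k (upd e p.1 p.2.1) * χ p.2 *
          (FF R ω Φ (upd e p.1 p.2.1) - FF R ω Φ (upd e p.1 p.2.2))) (TT μ) := by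
      intro Φ G hv
      refine TT_bdd ((((hφm k).comp (up1_law (μ := μ) e).measurable).mul
        (hχm.comp measurable_snd)).mul
          (((FF_meas hv.meas R ω).comp (up1_law (μ := μ) e).measurable).sub
          ((FF_meas hv.meas R ω).comp (up2_law (μ := μ) e).measurable))) (C := C) fun p => ?_
      rw [abs_mul, abs_mul]
      have c1 := hφk1 k (upd e p.1 p.2.1)
      have c2 := FF_upd_lip (ω := ω) hv heF heR p.1 p.2.1 p.2.2
      have c3 : |χ p.2| * |FF R ω Φ (upd e p.1 p.2.1) - FF R ω Φ (upd e p.1 p.2.2)| ≤ C := by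
        by_cases h0 : κ p.2 = 0
        · simp only [hχ]
          rw [h0, zero_div, abs_zero, zero_mul]
          exact hC.le
        · have h4 : 0 < |p.2.1 - p.2.2| := hθ.trans_le (hκθ p.2 h0)
          simp only [hχ]
          rw [abs_div, abs_of_nonneg (hκ0 p.2), div_mul_eq_mul_div, div_le_iff₀ h4]
          have h5 := hκC p.2
          have h6 := hκ0 p.2
          nlinarith [abs_nonneg (FF R ω Φ (upd e p.1 p.2.1) - FF R ω Φ (upd e p.1 p.2.2))]
      have c4 : 0 ≤ |χ p.2| * |FF R ω Φ (upd e p.1 p.2.1) - FF R ω Φ (upd e p.1 p.2.2)| := by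
        positivity
      rw [mul_assoc]
      nlinarith [abs_nonneg (φ k (upd e p.1 p.2.1))]
    have e1 : ∫ p, φ k (upd e p.1 p.2.1) * χ p.2 *
          (FF R ω Φ1 (upd e p.1 p.2.1) - FF R ω Φ1 (upd e p.1 p.2.2)) ∂(TT μ) -
        ∫ p, φ k (upd e p.1 p.2.1) * χ p.2 *
          (FF R ω Φ2 (upd e p.1 p.2.1) - FF R ω Φ2 (upd e p.1 p.2.2)) ∂(TT μ) =
        2 * D * ∫ J, g k J * NF (n * N) (FF R ω Φ1) (FF R ω Φ2) J ∂P := by
      rw [← integral_sub (ib v1) (ib v2)]
      have e2 := gt_repr (hφm k) (hφk1 k) hχm hχD hwin.meas hwin.int e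
      have e3 : ∀ p : (E → ℝ) × (ℝ × ℝ), φ k (upd e p.1 p.2.1) * χ p.2 *
          (FF R ω Φ1 (upd e p.1 p.2.1) - FF R ω Φ1 (upd e p.1 p.2.2)) -
          φ k (upd e p.1 p.2.1) * χ p.2 *
          (FF R ω Φ2 (upd e p.1 p.2.1) - FF R ω Φ2 (upd e p.1 p.2.2)) =
          φ k (upd e p.1 p.2.1) * χ p.2 * (NF (n * N) (FF R ω Φ1) (FF R ω Φ2) (upd e p.1 p.2.1) -
            NF (n * N) (FF R ω Φ1) (FF R ω Φ2) (upd e p.1 p.2.2)) := by
        intro p
        have hs : ({e} : Set E) ⊆ ((FB (n * N) : Finset E) : Set E) :=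
          Set.singleton_subset_iff.2 (Finset.mem_coe.2 heF)
        have e4 : ∀ t, patch ((FB (n * N) : Finset E) : Set E) (upd e p.1 t) (fun _ => 0) =
            patch ((FB (n * N) : Finset E) : Set E) p.1 (fun _ => 0) := fun t => by
          rw [upd_patch, patch_patch hs]
        unfold NF
        rw [e4, e4]
        ring
      simp only [e3]
      rw [e2, ← integral_const_mul]
      refine integral_congr_ae (Eventually.of_forall fun J => ?_)
      simp only [hg]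
      field_simp
      rw [← he, mul_comm]
    have e5 : ∀ x1 x2 a1 a2 : ℝ, |x1 - a1| ≤ 3 * (ε / 12) → |x2 - a2| ≤ 3 * (ε / 12) →
        |x1 - x2| ≤ |a1 - a2| + ε / 2 := by
      intro x1 x2 a1 a2 h1 h2
      have h3 : x1 - x2 = (x1 - a1) - (x2 - a2) + (a1 - a2) := by ring
      rw [h3]
      have h4 := abs_add_le ((x1 - a1) - (x2 - a2)) (a1 - a2)
      have h5 := abs_sub (x1 - a1) (x2 - a2)
      linarith
    have e6 := e5 _ _ _ _ b1 b2
    have e7 : |∫ p, φ k (upd e p.1 p.2.1) * (κ p.2 / (p.2.1 - p.2.2)) *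
          (FF R ω Φ1 (upd e p.1 p.2.1) - FF R ω Φ1 (upd e p.1 p.2.2)) ∂(TT μ) -
        ∫ p, φ k (upd e p.1 p.2.1) * (κ p.2 / (p.2.1 - p.2.2)) *
          (FF R ω Φ2 (upd e p.1 p.2.1) - FF R ω Φ2 (upd e p.1 p.2.2)) ∂(TT μ)| =
        2 * D * |∫ J, g k J * NF (n * N) (FF R ω Φ1) (FF R ω Φ2) J ∂P| := by
      have e8 := congrArg abs e1
      rw [abs_mul, abs_of_pos (by linarith : (0 : ℝ) < 2 * D)] at e8
      exact e8
    rw [e7] at e6
    exact e6
  refine (Finset.sum_le_sum h1).trans ?_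
  rw [Finset.sum_add_distrib, ← Finset.mul_sum, Finset.sum_const, card_pos, nsmul_eq_mul]
  have h2 := mul_le_mul_of_nonneg_left hm (by linarith : (0 : ℝ) ≤ 2 * D)
  have h3 : 2 * D * (ε / (4 * D) * (n : ℝ) ^ 2 +
      1 / K * ∑ i ∈ Finset.range K, (l i : ℝ) / H * ∑ j ∈ pos (q i), bet N ω (l i) j) =
      ε / 2 * (n : ℝ) ^ 2 + 2 * D * BE N K H l q ω := by
    unfold BE
    rw [mul_add]
    congr 1
    field_simp
    ring
  rw [h3] at h2
  push_cast
  linarith

end Pool.Agent.Helper24.NZ
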