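import Pool.Agent.Helper24.NZ.D

/-!
# Conditional expectations given an arbitrary set of couplings: the estimate in a window
-/

set_option autoImplicit false
set_option linter.unusedSectionVars false

open MeasureTheory Measure Filter Topology

namespace Pool.Agent.Helper24.NZ

open Pool.Agent.K3h93.EA
open Pool.Agent.K3h93.EF hiding psi_eq psi_le psi_meas upper1 psi_le' step1 step2 step3 scale_est main_est main_abs

variable {μ : Measure ℝ} [IsProbabilityMeasure μ]

/-- the product of the spins at a bond, bounded everywhere -/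
noncomputable def cb (σ : (E → ℝ) → V → ℝ) (e : E) (J : E → ℝ) : ℝ := clp 1 (bp (σ J) e)

lemma cb_meas {σ : (E → ℝ) → V → ℝ} (hσ : Measurable σ) (e : E) : Measurable (cb σ e) :=
  (clp_meas 1).comp (bpm hσ e)

lemma cb_le (σ : (E → ℝ) → V → ℝ) (e : E) (J : E → ℝ) : |cb σ e J| ≤ 1 := clp_le zero_le_one

lemma cb_of {σ : (E → ℝ) → V → ℝ} {J : E → ℝ} (h : Spin (σ J)) (e : E) :
    cb σ e J = bp (σ J) e := bp_clp h e

lemma cbd_meas {σ1 σ2 : (E → ℝ) → V → ℝ} (h1 : Measurable σ1) (h2 : Measurable σ2) (e : E) :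
    Measurable fun J => cb σ1 e J - cb σ2 e J := (cb_meas h1 e).sub (cb_meas h2 e)

lemma cbd_le (σ1 σ2 : (E → ℝ) → V → ℝ) (e : E) (J : E → ℝ) :
    |cb σ1 e J - cb σ2 e J| ≤ 2 :=
  (abs_sub _ _).trans (by linarith [cb_le σ1 e J, cb_le σ2 e J])

lemma frz_law (R : Set E) : MeasurePreserving (fun p : (E → ℝ) × (E → ℝ) => frz R p.1 p.2)
    ((infinitePi fun _ : E => μ).prod (infinitePi fun _ : E => μ)) (infinitePi fun _ : E => μ) := by
  have h1 : MeasurePreserving (fun p : (E → ℝ) × (E → ℝ) => (sw R p).1)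
      ((infinitePi fun _ : E => μ).prod (infinitePi fun _ : E => μ))
      (infinitePi fun _ : E => μ) := measurePreserving_fst.comp (sw_law μ R)
  exact h1.comp (measurePreserving_swap (μ := infinitePi fun _ : E => μ)
    (ν := infinitePi fun _ : E => μ))

lemma frz_patch {R : Set E} {e : E} (he : e ∉ R) (ω J y : E → ℝ) :
    frz R ω (patch ({e} : Set E)ᶜ J y) = patch (insert e R)ᶜ (frz R ω J) y := by
  funext e'
  by_cases h1 : e' ∈ R
  · have h2 : e' ∉ (insert e R)ᶜ := fun h => h (Set.mem_insert_of_mem _ h1)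
    rw [frz_mem h1, patch_not h2, frz_mem h1]
  · rw [frz_not h1]
    by_cases h2 : e' = e
    · subst h2
      have h3 : e' ∉ ({e'} : Set E)ᶜ := fun h => h rfl
      have h4 : e' ∉ (insert e' R)ᶜ := fun h => h (Set.mem_insert _ _)
      rw [patch_not h3, patch_not h4, frz_not h1]
    · have h3 : e' ∈ ({e} : Set E)ᶜ := h2
      have h4 : e' ∈ (insert e R)ᶜ := fun h => by
        rcases Set.mem_insert_iff.1 h with h | h
        · exact h2 h
        · exact h1 h
      rw [patch_mem h3, patch_mem h4]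

lemma CE_frz {R : Set E} {e : E} (he : e ∉ R) (f : (E → ℝ) → ℝ) (ω J : E → ℝ) :
    CE μ {e} (fun J => f (frz R ω J)) J = CE μ (insert e R) f (frz R ω J) := by
  unfold CE
  simp only [frz_patch he]

/-- the sign -/
noncomputable def sgf (x : ℝ) : ℝ := if 0 ≤ x then 1 else -1

lemma sgf_meas : Measurable sgf :=
  Measurable.ite (measurableSet_le measurable_const measurable_id) measurable_const
    measurable_const

lemma sgf_abs (x : ℝ) : |sgf x| = 1 := by unfold sgf; split_ifs <;> norm_num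

lemma sgf_mul (x : ℝ) : sgf x * x = |x| := by
  unfold sgf
  split_ifs with h
  · rw [one_mul, abs_of_nonneg h]
  · rw [abs_of_neg (not_le.1 h)]; ring

/-- **The estimate for conditional expectations in a window.** -/
lemma window_ce {N : ℕ} (hN : 1 ≤ N) (hμ : Integrable (fun x : ℝ => x) μ)
    (hat : ∀ x, μ {x} = 0) {ε : ℝ} (hε : 0 < ε) {e0 : E} (he0 : e0 ∈ blk N 0) :
    ∃ n : ℕ, 1 ≤ n ∧
      ∀ (Φ1 Φ2 : (E → ℝ) → ℝ) (G1 G2 : (E → ℝ) → (V → ℝ) → Prop),
      View (n * N) Φ1 G1 → View (n * N) Φ2 G2 → ∀ (σ1 σ2 : (E → ℝ) → V → ℝ), Measurable σ1 →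
      Measurable σ2 → (∀ᵐ J ∂(infinitePi fun _ : E => μ), G1 J (σ1 J)) →
      (∀ᵐ J ∂(infinitePi fun _ : E => μ), G2 J (σ2 J)) → ∀ (R : Set E) (c : V → ℝ),
      (∀ k, 0 ≤ c k ∧ c k ≤ 1) → (∀ k, st (nk N k) e0 ∈ R → c k = 0) →
      ∑ k ∈ pos n, c k * ∫ J, |CE μ (insert (st (nk N k) e0) R)
        (fun J => cb σ1 (st (nk N k) e0) J - cb σ2 (st (nk N k) e0) J) J|
          ∂(infinitePi fun _ : E => μ) ≤ ε * (n : ℝ) ^ 2 := by
  set P := infinitePi fun _ : E => μ with hP
  obtain ⟨n, B, hn, hB0, hBi, hBm, hmain⟩ := window_frz hN hμ hat (ε := ε / 2) (by linarith) he0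
  refine ⟨n, hn, fun Φ1 Φ2 G1 G2 v1 v2 σ1 σ2 hσ1 hσ2 hG1 hG2 R c hc hcR => ?_⟩
  set en : V → E := fun k => st (nk N k) e0 with hen
  have heb : ∀ k, en k ∈ ((blk N k : Finset E) : Set E) := fun k =>
    Finset.mem_coe.2 ((blk_shift N k e0).1 he0)
  set f : V → (E → ℝ) → ℝ := fun k J => cb σ1 (en k) J - cb σ2 (en k) J with hf
  have hfm : ∀ k, Measurable (f k) := fun k => cbd_meas hσ1 hσ2 _
  have hf2 : ∀ k J, |f k J| ≤ 2 := fun k J => cbd_le σ1 σ2 _ J
  -- for almost all frozen couplings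
  have hae : ∀ {G : (E → ℝ) → (V → ℝ) → Prop} {σ : (E → ℝ) → V → ℝ}, (∀ᵐ J ∂P, G J (σ J)) →
      ∀ᵐ ω ∂P, ∀ᵐ J ∂P, G (frz R ω J) (σ (frz R ω J)) := by
    intro G σ h
    have h1 := (frz_law (μ := μ) R).quasiMeasurePreserving.ae h
    exact ae_ae_of_ae_prod h1
  have key : ∀ᵐ ω ∂P, ∑ k ∈ pos n, c k * ∫ J, |CE μ (insert (en k) R) (f k) (frz R ω J)| ∂P ≤
      ε / 2 * (n : ℝ) ^ 2 + B ω := by
    filter_upwards [hae hG1, hae hG2] with ω h1 h2
    have hF : ∀ k, Measurable fun J => f k (frz R ω J) := fun k => (hfm k).comp (frz_meas R ω)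
    have hF2 : ∀ k J, |f k (frz R ω J)| ≤ 2 := fun k J => hf2 k _
    set φ : V → (E → ℝ) → ℝ := fun k J => c k * sgf (CE μ {en k} (fun J => f k (frz R ω J)) J)
      with hφ
    have hφm : ∀ k, Measurable (φ k) := fun k =>
      measurable_const.mul (sgf_meas.comp (CE_meas μ (hF k) _))
    have hφ1 : ∀ k J, |φ k J| ≤ 1 := fun k J => by
      simp only [hφ]
      rw [abs_mul, sgf_abs, mul_one, abs_of_nonneg (hc k).1]
      exact (hc k).2
    have hφd : ∀ k, Dep ({en k} : Set E) (φ k) := fun k J J' hJ => by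
      simp only [hφ]
      rw [CE_dep μ {en k} _ J J' hJ]
    have h3 := hmain _ _ _ _ v1 v2 R ω σ1 σ2 hσ1 hσ2 h1 h2 φ hφm hφ1
      (fun k => (hφd k).mono (Set.singleton_subset_iff.2 (heb k)))
      (fun k hk J => by simp only [hφ]; rw [hcR k hk, zero_mul])
    refine le_trans (Finset.sum_le_sum fun k _ => ?_) h3
    by_cases hk : en k ∈ R
    · rw [hcR k hk, zero_mul]
      exact abs_nonneg _
    have e1 : ∀ {σ : (E → ℝ) → V → ℝ}, (∀ᵐ J ∂P, Spin (σ (frz R ω J))) →
        ∫ J, φ k J * bp (σ (frz R ω J)) (en k) ∂P = ∫ J, φ k J * cb σ (en k) (frz R ω J) ∂P := by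
      intro σ h
      refine integral_congr_ae ?_
      filter_upwards [h] with J hJ
      rw [cb_of hJ]
    have s1 : ∀ᵐ J ∂P, Spin (σ1 (frz R ω J)) := h1.mono fun J hJ => v1.spin _ _ hJ
    have s2 : ∀ᵐ J ∂P, Spin (σ2 (frz R ω J)) := h2.mono fun J hJ => v2.spin _ _ hJ
    have hi : ∀ {σ : (E → ℝ) → V → ℝ}, Measurable σ →
        Integrable (fun J => φ k J * cb σ (en k) (frz R ω J)) P := fun {σ} hσ =>
      int_bdd μ ((hφm k).mul ((cb_meas hσ _).comp (frz_meas R ω))) (C := 1) fun J => by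
        rw [abs_mul]
        have := hφ1 k J
        have := cb_le σ (en k) (frz R ω J)
        nlinarith [abs_nonneg (φ k J), abs_nonneg (cb σ (en k) (frz R ω J))]
    rw [e1 s1, e1 s2, ← integral_sub (hi hσ1) (hi hσ2)]
    have e2 : ∫ J, (φ k J * cb σ1 (en k) (frz R ω J) - φ k J * cb σ2 (en k) (frz R ω J)) ∂P =
        ∫ J, CE μ {en k} (fun J => f k (frz R ω J)) J * φ k J ∂P := by
      rw [CE_mul μ (hF k) (hF2 k) (hφm k) (hφ1 k) (hφd k)]
      refine integral_congr_ae (Eventually.of_forall fun J => ?_)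
      simp only [hf]
      ring
    have e3 : ∫ J, CE μ {en k} (fun J => f k (frz R ω J)) J * φ k J ∂P =
        c k * ∫ J, |CE μ (insert (en k) R) (f k) (frz R ω J)| ∂P := by
      rw [← integral_const_mul]
      refine integral_congr_ae (Eventually.of_forall fun J => ?_)
      simp only [hφ]
      rw [← CE_frz hk, ← sgf_mul]
      ring
    rw [e2, e3]
    exact le_abs_self _
  -- integration over the frozen couplings
  have hgm : ∀ k, Measurable (CE μ (insert (en k) R) (f k)) := fun k => CE_meas μ (hfm k) _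
  have hg2 : ∀ k J, |CE μ (insert (en k) R) (f k) J| ≤ 2 := fun k J => CE_le μ (hf2 k) _ J
  have hpi : ∀ k, Integrable (fun p : (E → ℝ) × (E → ℝ) =>
      |CE μ (insert (en k) R) (f k) (frz R p.1 p.2)|) (P.prod P) := fun k =>
    pp_bdd μ ((hgm k).comp (frz_meas2 R)).abs (C := 2) fun p => by
      rw [abs_abs]; exact hg2 k _
  have hint : ∀ k, ∫ ω, ∫ J, |CE μ (insert (en k) R) (f k) (frz R ω J)| ∂P ∂P =
      ∫ J, |CE μ (insert (en k) R) (f k) J| ∂P := by
    intro k
    rw [← integral_prod _ (hpi k)]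
    exact mp_int (frz_law (μ := μ) R) (hgm k).abs
  have h5 : ∫ ω, ∑ k ∈ pos n, c k * ∫ J, |CE μ (insert (en k) R) (f k) (frz R ω J)| ∂P ∂P ≤
      ∫ ω, (ε / 2 * (n : ℝ) ^ 2 + B ω) ∂P :=
    integral_mono_ae (integrable_finsetSum _ fun k _ => ((hpi k).integral_prod_left).const_mul _)
      ((integrable_const _).add hBi) key
  rw [integral_finsetSum _ fun k _ => ((hpi k).integral_prod_left).const_mul _,
    integral_add (integrable_const _) hBi, integral_const, probReal_univ, one_smul] at h5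
  have h6 : ∑ k ∈ pos n, ∫ ω, c k * ∫ J, |CE μ (insert (en k) R) (f k) (frz R ω J)| ∂P ∂P =
      ∑ k ∈ pos n, c k * ∫ J, |CE μ (insert (en k) R) (f k) J| ∂P := by
    refine Finset.sum_congr rfl fun k _ => ?_
    rw [integral_const_mul, hint]
  rw [h6] at h5
  linarith

end Pool.Agent.Helper24.NZ
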