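import Pool.Agent.Helper24.NZ.F

/-!
# Random sets of known couplings: the estimate in a window
-/

set_option autoImplicit false
set_option linter.unusedSectionVars false

open MeasureTheory Measure Filter Topology

namespace Pool.Agent.Helper24.NZ

open Pool.Agent.K3h93.EA
open Pool.Agent.K3h93.EF hiding psi_eq psi_le psi_meas upper1 psi_le' step1 step2 step3 scale_est main_est main_abs

variable {μ ν : Measure ℝ} [IsProbabilityMeasure μ] [IsProbabilityMeasure ν]

/-- the known bonds -/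
def kn (δ : ℝ) (ξ : E → ℝ) : Set E := {e | δ ≤ ξ e}

/-- the coupling `y` at the hidden bonds -/
noncomputable def mx (δ : ℝ) (ξ J y : E → ℝ) : E → ℝ := patch (kn δ ξ)ᶜ J y

lemma mem_kn {δ : ℝ} {ξ : E → ℝ} {e : E} : e ∈ kn δ ξ ↔ δ ≤ ξ e := Iff.rfl

lemma mx_apply (δ : ℝ) (ξ J y : E → ℝ) (e : E) : mx δ ξ J y e = if δ ≤ ξ e then J e else y e := by
  unfold mx
  split_ifs with h
  · have h1 : e ∉ (kn δ ξ)ᶜ := by rw [Set.mem_compl_iff, not_not, mem_kn]; exact h
    exact patch_not h1 _ _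
  · have h1 : e ∈ (kn δ ξ)ᶜ := by rw [Set.mem_compl_iff, mem_kn]; exact h
    exact patch_mem h1 _ _

lemma mx_meas (δ : ℝ) : Measurable fun p : (E → ℝ) × ((E → ℝ) × (E → ℝ)) =>
    mx δ p.1 p.2.1 p.2.2 := by
  refine measurable_pi_lambda _ fun e => ?_
  simp only [mx_apply]
  refine Measurable.ite (measurableSet_le measurable_const (by fun_prop)) ?_ ?_
  · exact (measurable_pi_apply e).comp (measurable_fst.comp measurable_snd)
  · exact (measurable_pi_apply e).comp (measurable_snd.comp measurable_snd)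

/-- the coupling `y` at the hidden bonds different from `e` -/
lemma patch_ins (δ : ℝ) (e : E) (ξ J y : E → ℝ) :
    patch (insert e (kn δ ξ))ᶜ J y = fun e' => if δ ≤ ξ e' ∨ e' = e then J e' else y e' := by
  funext e'
  split_ifs with h
  · have h1 : e' ∉ (insert e (kn δ ξ))ᶜ := by
      rw [Set.mem_compl_iff, not_not, Set.mem_insert_iff, mem_kn]
      exact h.symm
    exact patch_not h1 _ _
  · have h1 : e' ∈ (insert e (kn δ ξ))ᶜ := by
      rw [Set.mem_compl_iff, Set.mem_insert_iff, mem_kn]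
      exact fun h' => h h'.symm
    exact patch_mem h1 _ _

lemma ins_meas (δ : ℝ) (e : E) : Measurable fun p : (E → ℝ) × ((E → ℝ) × (E → ℝ)) =>
    patch (insert e (kn δ p.1))ᶜ p.2.1 p.2.2 := by
  refine measurable_pi_lambda _ fun e' => ?_
  simp only [patch_ins]
  by_cases h : e' = e
  · simp only [h, or_true, if_true]
    exact (measurable_pi_apply e).comp (measurable_fst.comp measurable_snd)
  · simp only [h, or_false]
    refine Measurable.ite (measurableSet_le measurable_const (by fun_prop)) ?_ ?_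
    · exact (measurable_pi_apply e').comp (measurable_fst.comp measurable_snd)
    · exact (measurable_pi_apply e').comp (measurable_snd.comp measurable_snd)

/-- the conditional expectation is measurable in all variables -/
lemma CEi_meas {f : (E → ℝ) → ℝ} (hf : Measurable f) (δ : ℝ) (e : E) :
    Measurable fun p : (E → ℝ) × (E → ℝ) => CE μ (insert e (kn δ p.1)) f p.2 := by
  have h1 : Measurable fun q : ((E → ℝ) × (E → ℝ)) × (E → ℝ) =>
      f (patch (insert e (kn δ q.1.1))ᶜ q.1.2 q.2) :=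
    hf.comp ((ins_meas δ e).comp (f := fun q : ((E → ℝ) × (E → ℝ)) × (E → ℝ) =>
      (q.1.1, (q.1.2, q.2))) (by fun_prop))
  exact (h1.stronglyMeasurable.integral_prod_right).measurable

lemma CEk_meas {f : (E → ℝ) → ℝ} (hf : Measurable f) (δ : ℝ) :
    Measurable fun p : (E → ℝ) × (E → ℝ) => CE μ (kn δ p.1) f p.2 := by
  have h1 : Measurable fun q : ((E → ℝ) × (E → ℝ)) × (E → ℝ) =>
      f (mx δ q.1.1 q.1.2 q.2) :=
    hf.comp ((mx_meas δ).comp (f := fun q : ((E → ℝ) × (E → ℝ)) × (E → ℝ) =>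
      (q.1.1, (q.1.2, q.2))) (by fun_prop))
  exact (h1.stronglyMeasurable.integral_prod_right).measurable

lemma pq_bdd {f : (E → ℝ) × (E → ℝ) → ℝ} (hf : Measurable f) {C : ℝ} (hC : ∀ x, |f x| ≤ C) :
    Integrable f ((infinitePi fun _ : E => ν).prod (infinitePi fun _ : E => μ)) :=
  Integrable.of_bound hf.aestronglyMeasurable C
    (Eventually.of_forall fun x => by rw [Real.norm_eq_abs]; exact hC x)

/-- the size of the conditional expectation, for given known bonds -/
noncomputable def hh (μ : Measure ℝ) [IsProbabilityMeasure μ] (δ : ℝ) (e : E)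
    (f : (E → ℝ) → ℝ) (ξ : E → ℝ) : ℝ :=
  ∫ J, |CE μ (insert e (kn δ ξ)) f J| ∂(infinitePi fun _ : E => μ)

/-- the mean size of the conditional expectation -/
noncomputable def Dl (μ ν : Measure ℝ) [IsProbabilityMeasure μ] (δ : ℝ) (e : E)
    (f : (E → ℝ) → ℝ) : ℝ := ∫ ξ, hh μ δ e f ξ ∂(infinitePi fun _ : E => ν)

lemma hh_meas {f : (E → ℝ) → ℝ} (hf : Measurable f) (δ : ℝ) (e : E) :
    Measurable (hh μ δ e f) := by
  have h1 := (CEi_meas (μ := μ) hf δ e).abs
  exact (h1.stronglyMeasurable.integral_prod_right).measurable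

lemma hh_nonneg (δ : ℝ) (e : E) (f : (E → ℝ) → ℝ) (ξ : E → ℝ) : 0 ≤ hh μ δ e f ξ :=
  integral_nonneg fun _ => abs_nonneg _

lemma hh_le {f : (E → ℝ) → ℝ} {C : ℝ} (hC : ∀ J, |f J| ≤ C) (δ : ℝ) (e : E)
    (ξ : E → ℝ) : |hh μ δ e f ξ| ≤ C := by
  have := norm_integral_le_of_norm_le_const (μ := infinitePi fun _ : E => μ)
    (f := fun J => |CE μ (insert e (kn δ ξ)) f J|) (C := C)
    (Eventually.of_forall fun x => by
      rw [Real.norm_eq_abs, abs_abs]; exact CE_le μ hC _ _)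
  rwa [probReal_univ, mul_one, Real.norm_eq_abs] at this

lemma hh_dep (δ : ℝ) (e : E) (f : (E → ℝ) → ℝ) : Dep ({e} : Set E)ᶜ (hh μ δ e f) := by
  intro ξ ξ' h
  have h1 : insert e (kn δ ξ) = insert e (kn δ ξ') := by
    ext e'
    by_cases he : e' = e
    · subst he; simp
    · have h2 : ξ e' = ξ' e' := h e' he
      simp only [Set.mem_insert_iff, he, false_or, mem_kn, h2]
  unfold hh
  rw [h1]

/-- **The estimate for random sets of known bonds in a window.** -/
lemma window_rnd {N : ℕ} (hN : 1 ≤ N) (hμ : Integrable (fun x : ℝ => x) μ)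
    (hat : ∀ x, μ {x} = 0) {δ : ℝ} (hδ : 0 < ν.real (Set.Iio δ)) {ε : ℝ} (hε : 0 < ε) {e0 : E}
    (he0 : e0 ∈ blk N 0) :
    ∃ n : ℕ, 1 ≤ n ∧
      ∀ (Φ1 Φ2 : (E → ℝ) → ℝ) (G1 G2 : (E → ℝ) → (V → ℝ) → Prop),
      View (n * N) Φ1 G1 → View (n * N) Φ2 G2 → ∀ (σ1 σ2 : (E → ℝ) → V → ℝ), Measurable σ1 →
      Measurable σ2 → (∀ᵐ J ∂(infinitePi fun _ : E => μ), G1 J (σ1 J)) →
      (∀ᵐ J ∂(infinitePi fun _ : E => μ), G2 J (σ2 J)) →
      ∑ k ∈ pos n, Dl μ ν δ (st (nk N k) e0)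
        (fun J => cb σ1 (st (nk N k) e0) J - cb σ2 (st (nk N k) e0) J) ≤ ε * (n : ℝ) ^ 2 := by
  set p := ν.real (Set.Iio δ) with hp
  obtain ⟨n, hn, hmain⟩ := window_ce hN hμ hat (ε := ε * p) (by positivity) he0
  refine ⟨n, hn, fun Φ1 Φ2 G1 G2 v1 v2 σ1 σ2 hσ1 hσ2 hG1 hG2 => ?_⟩
  set en : V → E := fun k => st (nk N k) e0 with hen
  set f : V → (E → ℝ) → ℝ := fun k J => cb σ1 (en k) J - cb σ2 (en k) J with hf
  have hfm : ∀ k, Measurable (f k) := fun k => cbd_meas hσ1 hσ2 _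
  have hf2 : ∀ k J, |f k J| ≤ 2 := fun k J => cbd_le σ1 σ2 _ J
  set Q := infinitePi fun _ : E => ν with hQ
  set ind : E → (E → ℝ) → ℝ := fun e ξ => Set.indicator (Set.Iio δ) (fun _ => (1 : ℝ)) (ξ e)
    with hind
  have hindm : ∀ e, Measurable (ind e) := fun e =>
    (measurable_const.indicator measurableSet_Iio).comp (measurable_pi_apply e)
  have hind01 : ∀ e ξ, 0 ≤ ind e ξ ∧ ind e ξ ≤ 1 := fun e ξ => by
    simp only [hind]
    unfold Set.indicator
    split_ifs <;> norm_num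
  have hindd : ∀ e, Dep ({e} : Set E) (ind e) := fun e ξ ξ' h => by
    simp only [hind]
    rw [h e rfl]
  have hindi : ∀ e, ∫ ξ, ind e ξ ∂Q = p := by
    intro e
    have h7 := (measurePreserving_eval_infinitePi (fun _ : E => ν) e)
    have h8 := integral_map (μ := infinitePi fun _ : E => ν) (φ := Function.eval e)
      h7.measurable.aemeasurable (f := Set.indicator (Set.Iio δ) (fun _ => (1 : ℝ)))
      ((measurable_const.indicator measurableSet_Iio).aestronglyMeasurable)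
    rw [h7.map_eq, integral_indicator_const _ measurableSet_Iio, smul_eq_mul, mul_one] at h8
    exact h8.symm
  have h1 : ∀ ξ : E → ℝ, ∑ k ∈ pos n, hh μ δ (en k) (f k) ξ * ind (en k) ξ ≤
      ε * p * (n : ℝ) ^ 2 := by
    intro ξ
    have h2 := hmain _ _ _ _ v1 v2 σ1 σ2 hσ1 hσ2 hG1 hG2 (kn δ ξ) (fun k => ind (en k) ξ)
      (fun k => hind01 _ _) (fun k hk => by
        simp only [hind]
        rw [Set.indicator_of_notMem]
        exact fun h => absurd (mem_kn.1 hk) (not_le.2 (Set.mem_Iio.1 h)))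
    refine le_trans (le_of_eq ?_) h2
    refine Finset.sum_congr rfl fun k _ => ?_
    rw [mul_comm]
    rfl
  have hi : ∀ k, Integrable (fun ξ => hh μ δ (en k) (f k) ξ * ind (en k) ξ) Q := fun k =>
    int_bdd ν ((hh_meas (hfm k) δ (en k)).mul (hindm _)) (C := 2) fun ξ => by
      rw [abs_mul, abs_of_nonneg (hind01 _ _).1]
      have h2 := hh_le (μ := μ) (hf2 k) δ (en k) ξ
      have h3 := hind01 (en k) ξ
      nlinarith [abs_nonneg (hh μ δ (en k) (f k) ξ)]
  have h2 : ∫ ξ, ∑ k ∈ pos n, hh μ δ (en k) (f k) ξ * ind (en k) ξ ∂Q ≤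
      ∫ _ξ, ε * p * (n : ℝ) ^ 2 ∂Q :=
    integral_mono (integrable_finsetSum _ fun k _ => hi k) (integrable_const _) h1
  rw [integral_finsetSum _ fun k _ => hi k, integral_const, probReal_univ, one_smul] at h2
  have h3 : ∀ k, ∫ ξ, hh μ δ (en k) (f k) ξ * ind (en k) ξ ∂Q = Dl μ ν δ (en k) (f k) * p := by
    intro k
    rw [indep_int ν (hh_dep δ (en k) (f k)) (hindd (en k)), hindi]
    rfl
  simp only [h3] at h2
  rw [← Finset.sum_mul] at h2
  have h4 : ε * p * (n : ℝ) ^ 2 = ε * (n : ℝ) ^ 2 * p := by ring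
  rw [h4] at h2
  exact le_of_mul_le_mul_right h2 hδ

end Pool.Agent.Helper24.NZ
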