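import Pool.Agent.Helper24.NZ.G
import Pool.Agent.Helper24.EA.B
import Pool.Agent.Helper24.EA.A

/-!
# Translations, and averages over boxes
-/

set_option autoImplicit false
set_option linter.unusedSectionVars false

open MeasureTheory Measure Filter Topology

namespace Pool.Agent.Helper24.NZ

open Pool.Agent.K3h93.EA
open Pool.Agent.K3h93.EF hiding psi_eq psi_le psi_meas upper1 psi_le' step1 step2 step3 scale_est main_est main_abs

variable {μ ν : Measure ℝ} [IsProbabilityMeasure μ] [IsProbabilityMeasure ν]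

/-! ### Conditional expectations -/

section ce

variable {ι : Type*} {h h1 h2 : (ι → ℝ) → ℝ} {C : ℝ}

/-- the sign of the conditional expectation -/
noncomputable def sC (μ : Measure ℝ) [IsProbabilityMeasure μ] (I : Set ι) (h : (ι → ℝ) → ℝ)
    (J : ι → ℝ) : ℝ := sgf (CE μ I h J)

lemma sC_meas (hm : Measurable h) (I : Set ι) : Measurable (sC μ I h) :=
  sgf_meas.comp (CE_meas μ hm I)

lemma sC_abs (I : Set ι) (h : (ι → ℝ) → ℝ) (J : ι → ℝ) : |sC μ I h J| = 1 := sgf_abs _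

lemma sC_dep (I : Set ι) (h : (ι → ℝ) → ℝ) : Dep I (sC μ I h) := fun J J' hJ => by
  unfold sC
  rw [CE_dep μ I h J J' hJ]

lemma ce_dual (hm : Measurable h) (hC : ∀ J, |h J| ≤ C) (I : Set ι) :
    ∫ J, |CE μ I h J| ∂(infinitePi fun _ : ι => μ) =
      ∫ J, h J * sC μ I h J ∂(infinitePi fun _ : ι => μ) := by
  rw [← CE_mul μ hm hC (sC_meas hm I) (fun J => (sC_abs I h J).le) (sC_dep I h)]
  refine integral_congr_ae (Eventually.of_forall fun J => ?_)
  simp only [sC]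
  rw [mul_comm, sgf_mul]

lemma ce_mono (hm : Measurable h) (hC : ∀ J, |h J| ≤ C) {I I' : Set ι} (hI : I ⊆ I') :
    ∫ J, |CE μ I h J| ∂(infinitePi fun _ : ι => μ) ≤
      ∫ J, |CE μ I' h J| ∂(infinitePi fun _ : ι => μ) := by
  rw [ce_dual hm hC I, ← CE_mul μ hm hC (sC_meas hm I) (fun J => (sC_abs I h J).le)
    ((sC_dep I h).mono hI)]
  refine integral_mono (int_bdd μ ((CE_meas μ hm I').mul (sC_meas hm I))
    (C := C) fun J => ?_) (int_bdd μ (CE_meas μ hm I').abs (C := C) fun J => ?_) fun J => ?_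
  · rw [abs_mul, sC_abs, mul_one]
    exact CE_le μ hC _ J
  · rw [abs_abs]
    exact CE_le μ hC _ J
  · simp only
    refine (le_abs_self _).trans (le_of_eq ?_)
    rw [abs_mul, sC_abs, mul_one]

lemma CE_univ (h : (ι → ℝ) → ℝ) (J : ι → ℝ) : CE μ Set.univ h J = h J := by
  unfold CE
  have h1 : ∀ y, patch (Set.univ : Set ι)ᶜ J y = J := fun y => by
    funext e
    exact patch_not (by simp) _ _
  simp only [h1]
  rw [integral_const, probReal_univ, one_smul]

lemma ce_contr (hm : Measurable h) (hC : ∀ J, |h J| ≤ C) (I : Set ι) :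
    ∫ J, |CE μ I h J| ∂(infinitePi fun _ : ι => μ) ≤
      ∫ J, |h J| ∂(infinitePi fun _ : ι => μ) := by
  have h1 := ce_mono (μ := μ) hm hC (Set.subset_univ I)
  simp only [CE_univ] at h1
  exact h1

lemma CE_sub (hm1 : Measurable h1) (hC1 : ∀ J, |h1 J| ≤ C) (hm2 : Measurable h2)
    (hC2 : ∀ J, |h2 J| ≤ C) (I : Set ι) (J : ι → ℝ) :
    CE μ I (fun J => h1 J - h2 J) J = CE μ I h1 J - CE μ I h2 J := by
  unfold CE
  have hp : Measurable fun y : ι → ℝ => patch Iᶜ J y :=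
    (measurable_patch _).comp (measurable_const.prodMk measurable_id)
  exact integral_sub (int_bdd μ (hm1.comp hp) fun y => hC1 _) (int_bdd μ (hm2.comp hp) fun y => hC2 _)

lemma CE_add (hm1 : Measurable h1) (hC1 : ∀ J, |h1 J| ≤ C) (hm2 : Measurable h2)
    (hC2 : ∀ J, |h2 J| ≤ C) (I : Set ι) (J : ι → ℝ) :
    CE μ I (fun J => h1 J + h2 J) J = CE μ I h1 J + CE μ I h2 J := by
  unfold CE
  have hp : Measurable fun y : ι → ℝ => patch Iᶜ J y :=
    (measurable_patch _).comp (measurable_const.prodMk measurable_id)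
  exact integral_add (int_bdd μ (hm1.comp hp) fun y => hC1 _) (int_bdd μ (hm2.comp hp) fun y => hC2 _)

/-- the triangle inequality -/
lemma ce_tri (hm1 : Measurable h1) (hC1 : ∀ J, |h1 J| ≤ C) (hm2 : Measurable h2)
    (hC2 : ∀ J, |h2 J| ≤ C) (I : Set ι) :
    ∫ J, |CE μ I (fun J => h1 J + h2 J) J| ∂(infinitePi fun _ : ι => μ) ≤
      ∫ J, |CE μ I h1 J| ∂(infinitePi fun _ : ι => μ) +
        ∫ J, |CE μ I h2 J| ∂(infinitePi fun _ : ι => μ) := by
  have i1 : Integrable (fun J => |CE μ I h1 J|) (infinitePi fun _ : ι => μ) :=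
    int_bdd μ (CE_meas μ hm1 I).abs (C := C) fun J => by rw [abs_abs]; exact CE_le μ hC1 _ J
  have i2 : Integrable (fun J => |CE μ I h2 J|) (infinitePi fun _ : ι => μ) :=
    int_bdd μ (CE_meas μ hm2 I).abs (C := C) fun J => by rw [abs_abs]; exact CE_le μ hC2 _ J
  rw [← integral_add i1 i2]
  refine integral_mono (int_bdd μ (CE_meas μ (hm1.add hm2) I).abs (C := C + C) fun J => ?_)
    (i1.add i2) fun J => ?_
  · rw [abs_abs]
    exact CE_le μ (fun J => (abs_add_le _ _).trans (add_le_add (hC1 J) (hC2 J))) _ J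
  · simp only
    rw [CE_add hm1 hC1 hm2 hC2]
    exact abs_add_le _ _

/-- functions of the couplings in `F` -/
lemma CE_inter {F : Set ι} (hd : Dep F h) (K : Set ι) (J : ι → ℝ) :
    CE μ K h J = CE μ (K ∩ F) h J := by
  unfold CE
  congr 1
  funext y
  refine hd _ _ fun e he => ?_
  by_cases hK : e ∈ K
  · have h1 : e ∉ Kᶜ := by rw [Set.mem_compl_iff, not_not]; exact hK
    have h2 : e ∉ (K ∩ F)ᶜ := by rw [Set.mem_compl_iff, not_not]; exact ⟨hK, he⟩
    rw [patch_not h1, patch_not h2]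
  · have h1 : e ∈ Kᶜ := by rw [Set.mem_compl_iff]; exact hK
    have h2 : e ∈ (K ∩ F)ᶜ := by rw [Set.mem_compl_iff]; exact fun h => hK h.1
    rw [patch_mem h1, patch_mem h2]

end ce

/-! ### Translations -/

/-- the ground states seen from a window -/
def vw (x : V) (s : (E → ℝ) → V → ℝ) (J : E → ℝ) (v : V) : ℝ := s (sh (-x) J) (v + x)

lemma vw_meas {s : (E → ℝ) → V → ℝ} (hs : Measurable s) (x : V) : Measurable (vw x s) :=
  measurable_pi_lambda _ fun v => (measurable_pi_apply (v + x)).comp (hs.comp (measurable_sh _))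

lemma cb_vw (x : V) (s : (E → ℝ) → V → ℝ) (e : E) (J : E → ℝ) :
    cb (vw x s) e J = cb s (st x e) (sh (-x) J) := by
  unfold cb vw
  rw [bp_shift]

/-- the shifted set of bonds -/
def sS (x : V) (I : Set E) : Set E := {e | st (-x) e ∈ I}

lemma mem_sS {x : V} {I : Set E} {e : E} : e ∈ sS x I ↔ st (-x) e ∈ I := Iff.rfl

lemma sh_patch (x : V) (I : Set E) (J y : E → ℝ) :
    sh (-x) (patch Iᶜ J y) = patch (sS x I)ᶜ (sh (-x) J) (sh (-x) y) := by
  funext e
  rw [sh_apply]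
  by_cases h : st (-x) e ∈ I
  · have h1 : st (-x) e ∉ Iᶜ := by rw [Set.mem_compl_iff, not_not]; exact h
    have h2 : e ∉ (sS x I)ᶜ := by rw [Set.mem_compl_iff, not_not, mem_sS]; exact h
    rw [patch_not h1, patch_not h2, sh_apply]
  · have h1 : st (-x) e ∈ Iᶜ := by rw [Set.mem_compl_iff]; exact h
    have h2 : e ∈ (sS x I)ᶜ := by rw [Set.mem_compl_iff, mem_sS]; exact h
    rw [patch_mem h1, patch_mem h2, sh_apply]

lemma CE_sh {f : (E → ℝ) → ℝ} (hf : Measurable f) (x : V) (I : Set E) (J : E → ℝ) :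
    CE μ I (fun J => f (sh (-x) J)) J = CE μ (sS x I) f (sh (-x) J) := by
  unfold CE
  simp only [sh_patch]
  exact mp_int (sh_law μ (-x)) (g := fun y => f (patch (sS x I)ᶜ (sh (-x) J) y))
    (hf.comp ((measurable_patch _).comp (measurable_const.prodMk measurable_id)))

lemma sS_ins (x : V) (e : E) (δ : ℝ) (ξ : E → ℝ) :
    sS x (insert e (kn δ ξ)) = insert (st x e) (kn δ (sh (-x) ξ)) := by
  ext e'
  rw [mem_sS, Set.mem_insert_iff, Set.mem_insert_iff, mem_kn, mem_kn, sh_apply]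
  constructor
  · rintro (h | h)
    · left
      rw [← h, st_surj]
    · exact Or.inr h
  · rintro (h | h)
    · left
      rw [h, st_neg]
    · exact Or.inr h

lemma hh_sh {f : (E → ℝ) → ℝ} (hf : Measurable f) (x : V) (δ : ℝ) (e : E) (ξ : E → ℝ) :
    hh μ δ e (fun J => f (sh (-x) J)) ξ = hh μ δ (st x e) f (sh (-x) ξ) := by
  unfold hh
  simp only [CE_sh hf, sS_ins]
  exact mp_int (sh_law μ (-x)) (g := fun J => |CE μ (insert (st x e) (kn δ (sh (-x) ξ))) f J|)
    (CE_meas μ hf _).abs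

lemma Dl_sh {f : (E → ℝ) → ℝ} (hf : Measurable f) (x : V) (δ : ℝ) (e : E) :
    Dl μ ν δ e (fun J => f (sh (-x) J)) = Dl μ ν δ (st x e) f := by
  unfold Dl
  simp only [hh_sh hf]
  exact mp_int (sh_law ν (-x)) (g := hh μ δ (st x e) f) (hh_meas hf _ _)

/-! ### Sums over windows -/

lemma box_sum {n N L : ℕ} (hn : 1 ≤ n) {A : V → ℝ} (hA : ∀ a, 0 ≤ A a) {ε : ℝ} (hε : 0 ≤ ε)
    (h : ∀ x : V, (∀ i, 0 < x i ∧ x i + (n * N : ℕ) < L) →
      ∑ k ∈ pos n, A (nk N k + x) ≤ ε * (n : ℝ) ^ 2) :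
    ∑ a ∈ dp L (n * N + 1), A a ≤ ε * (L : ℝ) ^ 2 := by
  have hn0 : (0 : ℝ) < (n : ℝ) ^ 2 := by
    have : (0 : ℝ) < n := by exact_mod_cast hn
    positivity
  set W := n * N with hW
  set X : Finset V := Fintype.piFinset fun _ => Finset.Ico (1 : ℤ) ((L : ℤ) - W) with hX
  have hXm : ∀ x, x ∈ X ↔ ∀ i, 1 ≤ x i ∧ x i < (L : ℤ) - W := fun x => by
    rw [hX, Fintype.mem_piFinset]
    simp only [Finset.mem_Ico]
  have hXc : (X.card : ℝ) ≤ (L : ℝ) ^ 2 := by
    have h1 : X.card ≤ L ^ 2 := by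
      rw [hX, Fintype.card_piFinset]
      simp only [Int.card_Ico, Finset.prod_const, Finset.card_univ, Fintype.card_fin]
      exact Nat.pow_le_pow_left (by omega) 2
    exact_mod_cast h1
  have hsum : ∑ x ∈ X, ∑ k ∈ pos n, A (nk N k + x) ≤ (L : ℝ) ^ 2 * (ε * (n : ℝ) ^ 2) := by
    have h1 : ∑ x ∈ X, ∑ k ∈ pos n, A (nk N k + x) ≤
        ∑ _x ∈ X, ε * (n : ℝ) ^ 2 := Finset.sum_le_sum fun x hx => h x fun i => by
      have := (hXm x).1 hx i
      constructor <;> linarith [this.1, this.2]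
    rw [Finset.sum_const, nsmul_eq_mul] at h1
    exact h1.trans (mul_le_mul_of_nonneg_right hXc (by positivity))
  rw [Finset.sum_comm] at hsum
  have hdeep : ∀ k ∈ pos n, ∑ a ∈ dp L (W + 1), A a ≤ ∑ x ∈ X, A (nk N k + x) := by
    intro k hk
    classical
    have h1 : ∑ a ∈ dp L (W + 1), A a =
        ∑ x ∈ (dp L (W + 1)).image (fun a => a - nk N k), A (nk N k + x) := by
      rw [Finset.sum_image fun a _ b _ h => sub_left_injective h]
      refine Finset.sum_congr rfl fun a _ => ?_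
      rw [add_sub_cancel]
    rw [h1]
    refine Finset.sum_le_sum_of_subset_of_nonneg (fun x hx => ?_) fun _ _ _ => hA _
    rw [Finset.mem_image] at hx
    obtain ⟨a, ha, rfl⟩ := hx
    rw [mem_dp] at ha
    rw [hXm]
    rw [mem_pos] at hk
    intro i
    have h2 := ha i
    have h3 := hk i
    have hN0 : (0 : ℤ) ≤ N := Nat.cast_nonneg N
    have h4 : 0 ≤ (N : ℤ) * k i := mul_nonneg hN0 h3.1
    have h5 : (N : ℤ) * k i ≤ N * n := mul_le_mul_of_nonneg_left h3.2.le hN0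
    have h6 : (W : ℤ) = N * n := by rw [hW]; push_cast; ring
    simp only [Pi.sub_apply, nk]
    push_cast at h2
    constructor <;> linarith [h2.1, h2.2]
  have h7 : ∑ _k ∈ pos n, ∑ a ∈ dp L (W + 1), A a ≤
      (L : ℝ) ^ 2 * (ε * (n : ℝ) ^ 2) := (Finset.sum_le_sum hdeep).trans hsum
  rw [Finset.sum_const, card_pos, nsmul_eq_mul] at h7
  push_cast at h7
  have h9 : (n : ℝ) ^ 2 * ∑ a ∈ dp L (W + 1), A a ≤ (n : ℝ) ^ 2 * (ε * (L : ℝ) ^ 2) := by
    linarith
  exact le_of_mul_le_mul_left h9 hn0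

end Pool.Agent.Helper24.NZ
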