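import Pool.Agent.Helper24.NZ.H

/-!
# Two boundary terms; comparison with local functions
-/

set_option autoImplicit false
set_option linter.unusedSectionVars false

open MeasureTheory Measure Filter Topology

namespace Pool.Agent.Helper24.NZ

open Pool.Agent.K3h93.EA Pool.Agent.Helper24.EA
open Pool.Agent.K3h93.EF hiding psi_eq psi_le psi_meas upper1 psi_le' step1 step2 step3 scale_est main_est main_abs

variable {μ ν : Measure ℝ} [IsProbabilityMeasure μ] [IsProbabilityMeasure ν]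

/-- the size of a conditional expectation -/
noncomputable def nI (μ : Measure ℝ) [IsProbabilityMeasure μ] (I : Set E) (h : (E → ℝ) → ℝ) : ℝ :=
  ∫ J, |CE μ I h J| ∂(infinitePi fun _ : E => μ)

lemma nI_nonneg (I : Set E) (h : (E → ℝ) → ℝ) : 0 ≤ nI μ I h := integral_nonneg fun _ => abs_nonneg _

lemma nI_le {h : (E → ℝ) → ℝ} {C : ℝ} (hC : ∀ J, |h J| ≤ C) (I : Set E) : nI μ I h ≤ C := by
  have := norm_integral_le_of_norm_le_const (μ := infinitePi fun _ : E => μ)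
    (f := fun J => |CE μ I h J|) (C := C)
    (Eventually.of_forall fun x => by
      rw [Real.norm_eq_abs, abs_abs]; exact CE_le μ hC _ _)
  rw [probReal_univ, mul_one, Real.norm_eq_abs] at this
  exact (le_abs_self _).trans this

lemma nI_sh {f : (E → ℝ) → ℝ} (hf : Measurable f) (x : V) (I : Set E) :
    nI μ I (fun J => f (sh (-x) J)) = nI μ (sS x I) f := by
  unfold nI
  simp only [CE_sh hf]
  exact mp_int (sh_law μ (-x)) (g := fun J => |CE μ (sS x I) f J|) (CE_meas μ hf _).abs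

lemma nI_inter {h : (E → ℝ) → ℝ} {F : Set E} (hd : Dep F h) (K : Set E) :
    nI μ K h = nI μ (K ∩ F) h := by
  unfold nI
  simp only [CE_inter hd K]

lemma nI_neg (h : (E → ℝ) → ℝ) (I : Set E) : nI μ I (fun J => -h J) = nI μ I h := by
  unfold nI CE
  simp only [integral_neg, abs_neg]

lemma nI_tri {f g h : (E → ℝ) → ℝ} (hf : Measurable f) (hg : Measurable g) (hh : Measurable h)
    (f1 : ∀ J, |f J| ≤ 1) (g1 : ∀ J, |g J| ≤ 1) (h1 : ∀ J, |h J| ≤ 1) (I : Set E) :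
    nI μ I (fun J => f J - h J) ≤ nI μ I (fun J => f J - g J) + nI μ I (fun J => g J - h J) := by
  have h2 := ce_tri (μ := μ) (h1 := fun J => f J - g J) (h2 := fun J => g J - h J) (C := 2)
    (hf.sub hg) (fun J => (abs_sub _ _).trans (by linarith [f1 J, g1 J])) (hg.sub hh)
    (fun J => (abs_sub _ _).trans (by linarith [g1 J, h1 J])) I
  unfold nI
  refine le_trans (le_of_eq ?_) h2
  congr 1
  funext J
  congr 2
  funext J'
  ring

lemma nI_comm {f g : (E → ℝ) → ℝ} (I : Set E) :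
    nI μ I (fun J => f J - g J) = nI μ I (fun J => g J - f J) := by
  rw [← nI_neg]
  congr 1
  funext J
  ring

lemma nI_mono {h : (E → ℝ) → ℝ} {C : ℝ} (hm : Measurable h) (hC : ∀ J, |h J| ≤ C) {I I' : Set E}
    (hI : I ⊆ I') : nI μ I h ≤ nI μ I' h := ce_mono hm hC hI

lemma sS_ins' (x : V) (e : E) (R : Set E) :
    sS x (insert e (sS (-x) R)) = insert (st x e) R := by
  ext e'
  rw [mem_sS, Set.mem_insert_iff, Set.mem_insert_iff, mem_sS, neg_neg, st_surj]
  constructor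
  · rintro (h | h)
    · left
      rw [← h, st_surj]
    · exact Or.inr h
  · rintro (h | h)
    · left
      rw [h, st_neg]
    · exact Or.inr h

/-! ### Arbitrary sets of bonds -/

variable {w w' : ℕ → (E → ℝ) → (V → ℝ) → ℝ} {σ σ' : ℕ → (E → ℝ) → V → ℝ}

lemma vw_gs {L : ℕ} {w : (E → ℝ) → (V → ℝ) → ℝ} {σ : (E → ℝ) → V → ℝ}
    (hσ : Measurable σ) (hg : ∀ᵐ J ∂(infinitePi fun _ : E => μ), GSB L w J (σ J)) (x : V) :
    ∀ᵐ J ∂(infinitePi fun _ : E => μ), GSB L w (sh (-x) J) (fun v => vw x σ J (v - x)) :=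
  (view_gs hσ hg x).2

lemma e0_blk (i : Fin 2) : ((0, i) : E) ∈ blk 1 0 := by
  rw [mem_blk]
  intro j
  simp

lemma nk_one (k : V) : nk 1 k = k := by
  funext i
  unfold nk
  simp

/-- **Hiding an arbitrary set of couplings.** -/
lemma det_two (hμ : Integrable (fun x : ℝ => x) μ) (hat : ∀ x, μ {x} = 0) (i : Fin 2) {ε : ℝ}
    (hε : 0 < ε) : ∃ m : ℕ, ∀ w σ w' σ', Sq μ w σ → Sq μ w' σ' → ∀ (L : ℕ) (R : Set E) (c : E → ℝ),
      (∀ e, 0 ≤ c e ∧ c e ≤ 1) → (∀ e ∈ R, c e = 0) →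
      ∑ a ∈ dp L m, c (st a (0, i)) * nI μ (insert (st a (0, i)) R)
        (fun J => cb (σ L) (st a (0, i)) J - cb (σ' L) (st a (0, i)) J) ≤ ε * (L : ℝ) ^ 2 := by
  obtain ⟨n, hn, hmain⟩ := window_ce (N := 1) le_rfl hμ hat hε (e0_blk i)
  refine ⟨n * 1 + 1, fun w σ w' σ' hs hs' L R c hc hcR => ?_⟩
  refine box_sum (N := 1) hn (A := fun a => c (st a (0, i)) * nI μ (insert (st a (0, i)) R)
    (fun J => cb (σ L) (st a (0, i)) J - cb (σ' L) (st a (0, i)) J))
    (fun a => mul_nonneg (hc _).1 (nI_nonneg _ _)) hε.le fun x hx => ?_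
  have h1 := hmain _ _ _ _ (box_view (hs.bt L) hx) (box_view (hs'.bt L) hx) _ _
    (vw_meas (hs.meas L) x) (vw_meas (hs'.meas L) x) (vw_gs (hs.meas L) (hs.gs L) x)
    (vw_gs (hs'.meas L) (hs'.gs L) x) (sS (-x) R) (fun k => c (st (k + x) (0, i)))
    (fun k => hc _) (fun k hk => by
      rw [mem_sS, neg_neg, st_st, nk_one, add_comm] at hk
      exact hcR _ hk)
  refine le_trans (le_of_eq ?_) h1
  refine Finset.sum_congr rfl fun k _ => ?_
  rw [nk_one]
  congr 1
  have h2 := nI_sh (μ := μ) (f := fun J => cb (σ L) (st (k + x) (0, i)) J -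
    cb (σ' L) (st (k + x) (0, i)) J) (cbd_meas (hs.meas L) (hs'.meas L) _) x
    (insert (st k (0, i)) (sS (-x) R))
  rw [sS_ins', st_st, add_comm x k] at h2
  rw [← h2]
  have h3 : ∀ (s : (E → ℝ) → V → ℝ) (J : E → ℝ), cb (vw x s) (st k (0, i)) J =
      cb s (st (k + x) (0, i)) (sh (-x) J) := fun s J => by
    rw [cb_vw, st_st, add_comm x k]
  simp only [h3]
  rfl

/-! ### Comparison with local functions -/

lemma hh_eq (δ : ℝ) (e : E) (f : (E → ℝ) → ℝ) (ξ : E → ℝ) :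
    hh μ δ e f ξ = nI μ (insert e (kn δ ξ)) f := rfl

lemma sS_inter (a : V) (F : Finset E) (K : Set E) [DecidablePred fun e => st a e ∈ K] :
    K ∩ sS a (F : Set E) = sS a ((F.filter fun e => st a e ∈ K : Finset E) : Set E) := by
  ext e
  rw [Set.mem_inter_iff, mem_sS, mem_sS, Finset.mem_coe, Finset.mem_coe, Finset.mem_filter,
    st_surj, and_comm]

/-- the deterministic estimate -/
lemma cmp_det {a : V} {F : Finset E} {f M g : (E → ℝ) → ℝ} (hf : Measurable f) (hM : Measurable M)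
    (hg : Measurable g) (f1 : ∀ J, |f J| ≤ 1) (M1 : ∀ J, |M J| ≤ 1) (g1 : ∀ J, |g J| ≤ 1)
    (hd : Dep (sS a (F : Set E)) g) (K : Set E) :
    nI μ K (fun J => f J - M J) ≤ 2 * nI μ K (fun J => f J - g J) +
      ∑ S ∈ F.powerset, nI μ (sS a (S : Set E)) (fun J => f J - M J) +
      2 * ∫ J, |M J - CE μ (sS a (F : Set E)) M J| ∂(infinitePi fun _ : E => μ) := by
  classical
  set Fa : Set E := sS a (F : Set E) with hFa
  set Mt : (E → ℝ) → ℝ := CE μ Fa M with hMt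
  have mMt : Measurable Mt := CE_meas μ hM _
  have Mt1 : ∀ J, |Mt J| ≤ 1 := CE_le μ M1 _
  have b2 : ∀ {u v : (E → ℝ) → ℝ}, (∀ J, |u J| ≤ 1) → (∀ J, |v J| ≤ 1) →
      ∀ J, |u J - v J| ≤ 2 := fun hu hv J => (abs_sub _ _).trans (by linarith [hu J, hv J])
  have h1 := nI_tri (μ := μ) hf hg hM f1 g1 M1 K
  have h2 := nI_tri (μ := μ) hg mMt hM g1 Mt1 M1 K
  have h3 : nI μ K (fun J => g J - Mt J) = nI μ (K ∩ Fa) (fun J => g J - Mt J) := by
    refine nI_inter (fun J J' hJ => ?_) K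
    rw [hd J J' hJ, hMt, CE_dep μ Fa M J J' hJ]
  have h4 := nI_tri (μ := μ) hg hf mMt g1 f1 Mt1 (K ∩ Fa)
  have h5 := nI_tri (μ := μ) hf hM mMt f1 M1 Mt1 (K ∩ Fa)
  have h6 : nI μ (K ∩ Fa) (fun J => g J - f J) ≤ nI μ K (fun J => f J - g J) := by
    rw [nI_comm]
    exact nI_mono (hf.sub hg) (b2 f1 g1) Set.inter_subset_left
  have h7 : ∀ I : Set E, nI μ I (fun J => M J - Mt J) ≤
      ∫ J, |M J - Mt J| ∂(infinitePi fun _ : E => μ) := fun I =>
    ce_contr (hM.sub mMt) (b2 M1 Mt1) I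
  have h8 : nI μ K (fun J => Mt J - M J) = nI μ K (fun J => M J - Mt J) := nI_comm _
  have h9 : nI μ (K ∩ Fa) (fun J => f J - M J) ≤
      ∑ S ∈ F.powerset, nI μ (sS a (S : Set E)) (fun J => f J - M J) := by
    rw [hFa, sS_inter]
    exact Finset.single_le_sum (f := fun S : Finset E =>
      nI μ (sS a (S : Set E)) (fun J => f J - M J)) (fun S _ => nI_nonneg _ _)
      (Finset.mem_powerset.2 (Finset.filter_subset _ _))
  have h10 := h7 K
  have h11 := h7 (K ∩ Fa)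
  linarith

/-- the estimate for random sets -/
lemma cmp_rnd {a : V} {F : Finset E} {f M g : (E → ℝ) → ℝ} (hf : Measurable f) (hM : Measurable M)
    (hg : Measurable g) (f1 : ∀ J, |f J| ≤ 1) (M1 : ∀ J, |M J| ≤ 1) (g1 : ∀ J, |g J| ≤ 1)
    (hd : Dep (sS a (F : Set E)) g) (δ : ℝ) (e : E) :
    Dl μ ν δ e (fun J => f J - M J) ≤ 2 * Dl μ ν δ e (fun J => f J - g J) +
      ∑ S ∈ F.powerset, nI μ (sS a (S : Set E)) (fun J => f J - M J) +
      2 * ∫ J, |M J - CE μ (sS a (F : Set E)) M J| ∂(infinitePi fun _ : E => μ) := by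
  have b2 : ∀ {u v : (E → ℝ) → ℝ}, (∀ J, |u J| ≤ 1) → (∀ J, |v J| ≤ 1) →
      ∀ J, |u J - v J| ≤ 2 := fun hu hv J => (abs_sub _ _).trans (by linarith [hu J, hv J])
  have i1 : Integrable (hh μ δ e (fun J => f J - M J)) (infinitePi fun _ : E => ν) :=
    int_bdd ν (hh_meas (hf.sub hM) δ e) (C := 2) (hh_le (b2 f1 M1) δ e)
  have i2 : Integrable (hh μ δ e (fun J => f J - g J)) (infinitePi fun _ : E => ν) :=
    int_bdd ν (hh_meas (hf.sub hg) δ e) (C := 2) (hh_le (b2 f1 g1) δ e)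
  set U := ∑ S ∈ F.powerset, nI μ (sS a (S : Set E)) (fun J => f J - M J) with hU
  set η := ∫ J, |M J - CE μ (sS a (F : Set E)) M J| ∂(infinitePi fun _ : E => μ) with hη
  have h1 : ∫ ξ, hh μ δ e (fun J => f J - M J) ξ ∂(infinitePi fun _ : E => ν) ≤
      ∫ ξ, (2 * hh μ δ e (fun J => f J - g J) ξ + (U + 2 * η)) ∂(infinitePi fun _ : E => ν) := by
    refine integral_mono i1 ((i2.const_mul 2).add (integrable_const _)) fun ξ => ?_
    simp only
    rw [hh_eq, hh_eq]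
    have := cmp_det (μ := μ) hf hM hg f1 M1 g1 hd (insert e (kn δ ξ))
    linarith
  rw [integral_add (i2.const_mul 2) (integrable_const _), integral_const_mul, integral_const,
    probReal_univ, one_smul] at h1
  unfold Dl
  linarith

end Pool.Agent.Helper24.NZ
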