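import Pool.Agent.Helper24.NZ.I

/-!
# The conditional expectations given random sets of couplings are universal
-/

set_option autoImplicit false
set_option linter.unusedSectionVars false

open MeasureTheory Measure Filter Topology

namespace Pool.Agent.Helper24.NZ

open Pool.Agent.K3h93.EA Pool.Agent.Helper24.EA
open Pool.Agent.K3h93.EF hiding psi_eq psi_le psi_meas upper1 psi_le' step1 step2 step3 scale_est main_est main_abs

variable {μ ν : Measure ℝ} [IsProbabilityMeasure μ] [IsProbabilityMeasure ν]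

/-- comparison with functions of the couplings in a bounded distance -/
lemma ref_win (hμ : Integrable (fun x : ℝ => x) μ) (hat : ∀ x, μ {x} = 0) (i : Fin 2) {δ : ℝ}
    (hδ : 0 < ν.real (Set.Iio δ)) {ε : ℝ} (hε : 0 < ε) :
    ∃ (n : ℕ) (F : Finset E), 1 ≤ n ∧ ∀ w σ, Sq μ w σ → ∀ (L : ℕ) (x : V),
      (∀ i, 0 < x i ∧ x i + (n : ℕ) < L) → ∃ g : V → (E → ℝ) → ℝ, (∀ k, Measurable (g k)) ∧
      (∀ k J, |g k J| ≤ 1) ∧ (∀ k ∈ pos n, Dep (sS (k + x) (F : Set E)) (g k)) ∧
      ∑ k ∈ pos n, Dl μ ν δ (st (k + x) (0, i))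
        (fun J => cb (σ L) (st (k + x) (0, i)) J - g k J) ≤ ε * (n : ℝ) ^ 2 := by
  classical
  obtain ⟨n, hn, hmain⟩ := window_rnd (ν := ν) (N := 1) le_rfl hμ hat hδ hε (e0_blk i)
  set L0 := n * 1 + 2 with hL0
  set x0 : V := fun _ => 1 with hx0
  have hx01 : ∀ i, 0 < x0 i ∧ x0 i + (n * 1 : ℕ) < L0 := fun i => by
    refine ⟨one_pos, ?_⟩
    show (1 : ℤ) + ((n * 1 : ℕ) : ℤ) < ((n * 1 + 2 : ℕ) : ℤ)
    rw [Nat.cast_add]
    norm_num
    linarith
  have hfr := fr_sq (μ := μ)
  refine ⟨n, (pos n).biUnion fun k => (FB L0).image (st (-k - x0)), hn,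
    fun w σ hs L x hx => ?_⟩
  have hx' : ∀ i, 0 < x i ∧ x i + (n * 1 : ℕ) < L := by simpa using hx
  have h1 := hmain _ _ _ _ (box_view (hs.bt L) hx') (box_view (hfr.bt L0) hx01) _ _
    (vw_meas (hs.meas L) x) (vw_meas (fr_meas L0) x0) (vw_gs (hs.meas L) (hs.gs L) x)
    (vw_gs (hfr.meas L0) (hfr.gs L0) x0)
  set g : V → (E → ℝ) → ℝ := fun k J => cb (vw x0 (fr L0)) (st k (0, i)) (sh x J) with hg
  have hgm : ∀ k, Measurable (g k) := fun k =>
    (cb_meas (vw_meas (fr_meas L0) x0) _).comp (measurable_sh x)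
  refine ⟨g, hgm, fun k J => cb_le _ _ _, fun k hk J J' hJ => ?_, ?_⟩
  · have h2 : vw x0 (fr L0) (sh x J) = vw x0 (fr L0) (sh x J') := by
      funext v
      unfold vw
      have h3 : fr L0 (sh (-x0) (sh x J)) = fr L0 (sh (-x0) (sh x J')) := by
        refine (exists_free L0).choose_spec.2.2 _ _ fun e he => ?_
        rw [sh_apply, sh_apply, sh_apply, sh_apply]
        refine hJ _ ?_
        rw [mem_sS, Finset.mem_coe, Finset.mem_biUnion]
        refine ⟨k, hk, Finset.mem_image.2 ⟨e, he, ?_⟩⟩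
        rw [st_st, st_st]
        congr 1
        abel
      rw [h3]
    simp only [hg]
    unfold cb
    rw [h2]
  · refine le_trans (le_of_eq ?_) h1
    refine Finset.sum_congr rfl fun k _ => ?_
    rw [nk_one]
    have h2 := Dl_sh (μ := μ) (ν := ν) (f := fun J => cb (σ L) (st (k + x) (0, i)) J - g k J)
      ((cb_meas (hs.meas L) _).sub (hgm k)) x δ (st k (0, i))
    rw [st_st, add_comm x k] at h2
    rw [← h2]
    congr 1
    funext J
    simp only [hg]
    rw [cb_vw x, st_st, add_comm x k, sh_sh, add_neg_cancel, sh_zero]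

variable {w w' : ℕ → (E → ℝ) → (V → ℝ) → ℝ} {σ σ' : ℕ → (E → ℝ) → V → ℝ} {m : (E → ℝ) → ℝ}
  {i : Fin 2}

/-- the universality of the bond expectations -/
lemma ubm_set (hm : Um μ (0, i) m) (hs : Sq μ w σ) (S : Finset E) :
    Tendsto (fun L : ℕ => (∑ a ∈ pos L, nI μ (sS a (S : Set E))
      (fun J => cb (σ L) (st a (0, i)) J - m (sh a J))) / (L : ℝ) ^ 2) atTop (𝓝 0) := by
  set P := infinitePi fun _ : E => μ with hP
  set q : ℕ → V → (E → ℝ) → ℝ := fun L a J => cb (σ L) (st a (0, i)) (sh (-a) J) - m J with hq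
  have hqm : ∀ L a, Measurable (q L a) := fun L a =>
    ((cb_meas (hs.meas L) _).comp (measurable_sh _)).sub hm.meas
  have hq2 : ∀ L a J, |q L a J| ≤ 2 := fun L a J =>
    (abs_sub _ _).trans (by linarith [cb_le (σ L) (st a (0, i)) (sh (-a) J), hm.le J])
  set φ : ℕ → V → (E → ℝ) → ℝ := fun L a => sC μ (S : Set E) (q L a) with hφ
  have hφL : ∀ L a, Lo S (φ L a) := fun L a =>
    ⟨sC_meas (hqm L a) _, fun J => (sC_abs _ _ J).le, sC_dep _ _⟩
  have h1 := hm.univ w σ hs S φ hφL
  refine h1.congr fun L => ?_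
  congr 1
  refine Finset.sum_congr rfl fun a _ => ?_
  -- the correlation
  have e1 : PL μ (φ L a) (0, i) (σ L) a =
      ∫ J, φ L a J * cb (σ L) (st a (0, i)) (sh (-a) J) ∂P := by
    unfold PL
    have e2 : ∫ J, φ L a (sh a J) * bp (σ L J) (st a (0, i)) ∂P =
        ∫ J, φ L a (sh a J) * cb (σ L) (st a (0, i)) J ∂P := by
      refine integral_congr_ae ?_
      filter_upwards [hs.gs L] with J hJ
      rw [cb_of hJ.1]
    rw [e2, ← mp_int (sh_law μ (-a)) (g := fun J => φ L a (sh a J) * cb (σ L) (st a (0, i)) J)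
      (((hφL L a).meas.comp (measurable_sh _)).mul (cb_meas (hs.meas L) _))]
    refine integral_congr_ae (Eventually.of_forall fun J => ?_)
    simp only
    rw [sh_sh, add_neg_cancel, sh_zero]
  have i1 : Integrable (fun J => φ L a J * cb (σ L) (st a (0, i)) (sh (-a) J)) P :=
    int_bdd μ ((hφL L a).meas.mul ((cb_meas (hs.meas L) _).comp (measurable_sh _))) (C := 1)
      fun J => by
        rw [abs_mul]
        have := (hφL L a).le J
        have := cb_le (σ L) (st a (0, i)) (sh (-a) J)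
        nlinarith [abs_nonneg (φ L a J), abs_nonneg (cb (σ L) (st a (0, i)) (sh (-a) J))]
  have i2 : Integrable (fun J => φ L a J * m J) P :=
    int_bdd μ ((hφL L a).meas.mul hm.meas) (C := 1) fun J => by
      rw [abs_mul]
      have := (hφL L a).le J
      have := hm.le J
      nlinarith [abs_nonneg (φ L a J), abs_nonneg (m J)]
  rw [e1, ← integral_sub i1 i2]
  have e3 : ∫ J, (φ L a J * cb (σ L) (st a (0, i)) (sh (-a) J) - φ L a J * m J) ∂P =
      nI μ (S : Set E) (q L a) := by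
    unfold nI
    rw [ce_dual (hqm L a) (hq2 L a)]
    refine integral_congr_ae (Eventually.of_forall fun J => ?_)
    simp only [hq, hφ]
    ring
  rw [e3, abs_of_nonneg (nI_nonneg _ _)]
  have h2 := nI_sh (μ := μ) (f := fun J => cb (σ L) (st a (0, i)) J - m (sh a J))
    ((cb_meas (hs.meas L) _).sub (hm.meas.comp (measurable_sh _))) a (S : Set E)
  rw [← h2]
  congr 1
  funext J
  simp only [hq]
  rw [sh_sh, add_neg_cancel, sh_zero]

/-- the approximation of the universal function does not depend on the position -/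
lemma eta_sh (hm : Measurable m) (a : V) (F : Set E) :
    ∫ J, |m (sh a J) - CE μ (sS a F) (fun J => m (sh a J)) J| ∂(infinitePi fun _ : E => μ) =
      ∫ J, |m J - CE μ F m J| ∂(infinitePi fun _ : E => μ) := by
  have h0 : ∀ J : E → ℝ, CE μ (sS a F) (fun J => m (sh a J)) J = CE μ F m (sh a J) := by
    intro J
    have h1 := CE_sh (μ := μ) hm (-a) (sS a F) J
    rw [neg_neg] at h1
    rw [h1]
    congr 1
    ext e
    rw [mem_sS, mem_sS, neg_neg, st_neg]
  simp only [h0]
  exact mp_int (sh_law μ a) (g := fun J => |m J - CE μ F m J|) (hm.sub (CE_meas μ hm F)).abs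

lemma CE_approx (hm : Measurable m) (hm1 : ∀ J, |m J| ≤ 1) {ε : ℝ} (hε : 0 < ε) :
    ∃ F : Finset E, ∀ F' : Finset E, F ⊆ F' →
      ∫ J, |m J - CE μ (F' : Set E) m J| ∂(infinitePi fun _ : E => μ) ≤ ε := by
  set P := infinitePi fun _ : E => μ with hP
  have h1 := approx μ hm hm1 (I := fun M => ((bM M : Finset E) : Set E)) bM_exhaust
  obtain ⟨M, hM⟩ := (h1.eventually (gt_mem_nhds (show (0 : ℝ) < ε / 2 by linarith))).exists
  have b2 : ∀ (I : Set E) J, |m J - CE μ I m J| ≤ 2 := fun I J =>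
    (abs_sub _ _).trans (by linarith [hm1 J, CE_le μ hm1 I J])
  have h2 : ∫ J, |m J - CE μ ((bM M : Finset E) : Set E) m J| ∂P ≤ ε / 2 := by
    refine le_trans ?_ hM.le
    have hi : Integrable (fun p : (E → ℝ) × (E → ℝ) =>
        m p.1 - m (patch ((bM M : Finset E) : Set E)ᶜ p.1 p.2)) (P.prod P) :=
      pp_bdd μ ((hm.comp measurable_fst).sub (hm.comp (measurable_patch _))) (C := 2) fun p =>
        (abs_sub _ _).trans (by linarith [hm1 p.1, hm1 (patch ((bM M : Finset E) : Set E)ᶜ p.1 p.2)])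
    rw [integral_prod _ hi.abs]
    refine integral_mono (int_bdd μ (hm.sub (CE_meas μ hm _)).abs (C := 2) fun J => by
      rw [abs_abs]; exact b2 _ J) hi.abs.integral_prod_left fun J => ?_
    simp only
    have h3 : m J - CE μ ((bM M : Finset E) : Set E) m J =
        ∫ y, (m J - m (patch ((bM M : Finset E) : Set E)ᶜ J y)) ∂P := by
      have hp : Measurable fun y : E → ℝ => patch ((bM M : Finset E) : Set E)ᶜ J y :=
        (measurable_patch _).comp (measurable_const.prodMk measurable_id)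
      have h8 : ∫ y, (m J - m (patch ((bM M : Finset E) : Set E)ᶜ J y)) ∂P =
          ∫ _y, m J ∂P - ∫ y, m (patch ((bM M : Finset E) : Set E)ᶜ J y) ∂P :=
        integral_sub (integrable_const _) (int_bdd μ (hm.comp hp) fun y => hm1 _)
      rw [h8, integral_const, probReal_univ, one_smul]
      rfl
    rw [h3]
    exact abs_integral_le_integral_abs
  refine ⟨bM M, fun F' hF' => ?_⟩
  set A : Set E := ((bM M : Finset E) : Set E) with hA
  set B : Set E := (F' : Set E) with hB
  have hAB : A ⊆ B := by exact_mod_cast hF'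
  have mA := CE_meas μ hm A
  have mB := CE_meas μ hm B
  -- the conditional expectation given `B` is a better approximation up to a factor
  have h4 : ∫ J, |CE μ B (fun J => m J - CE μ A m J) J| ∂P ≤ ε / 2 :=
    (ce_contr (hm.sub mA) (b2 A) B).trans h2
  have h5 : ∀ J, CE μ B (fun J => m J - CE μ A m J) J = CE μ B m J - CE μ A m J := by
    intro J
    rw [CE_sub (C := 1) hm hm1 mA (CE_le μ hm1 A) B J]
    congr 1
    have h6 : ∀ y, CE μ A m (patch Bᶜ J y) = CE μ A m J := fun y => by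
      refine (CE_dep μ A m).patch_out ?_ J y
      rw [Set.disjoint_compl_right_iff_subset]
      exact hAB
    unfold CE at h6 ⊢
    simp only [h6]
    rw [integral_const, probReal_univ, one_smul]
  simp only [h5] at h4
  have hi1 : Integrable (fun J => |m J - CE μ A m J|) P :=
    int_bdd μ (hm.sub mA).abs (C := 2) fun J => by rw [abs_abs]; exact b2 _ J
  have hi2 : Integrable (fun J => |CE μ B m J - CE μ A m J|) P :=
    int_bdd μ (mB.sub mA).abs (C := 2) fun J => by
      rw [abs_abs]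
      exact (abs_sub _ _).trans (by linarith [CE_le μ hm1 A J, CE_le μ hm1 B J])
  have h7 : ∫ J, |m J - CE μ B m J| ∂P ≤
      ∫ J, (|m J - CE μ A m J| + |CE μ B m J - CE μ A m J|) ∂P := by
    refine integral_mono (int_bdd μ (hm.sub mB).abs (C := 2) fun J => by
      rw [abs_abs]; exact b2 _ J) (hi1.add hi2) fun J => ?_
    simp only
    have : m J - CE μ B m J = (m J - CE μ A m J) - (CE μ B m J - CE μ A m J) := by ring
    rw [this]
    exact abs_sub _ _
  rw [integral_add hi1 hi2] at h7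
  linarith

/-- **The conditional expectation given a random set of couplings is universal.** -/
theorem lim_rnd (hμ : Integrable (fun x : ℝ => x) μ) (hat : ∀ x, μ {x} = 0)
    {δ : ℝ} (hδ : 0 < ν.real (Set.Iio δ)) (hm : Um μ (0, i) m) (hs : Sq μ w σ) :
    Tendsto (fun L : ℕ => (∑ a ∈ pos L, Dl μ ν δ (st a (0, i))
      (fun J => cb (σ L) (st a (0, i)) J - m (sh a J))) / (L : ℝ) ^ 2) atTop (𝓝 0) := by
  classical
  set X : ℕ → V → ℝ := fun L a => Dl μ ν δ (st a (0, i))
    (fun J => cb (σ L) (st a (0, i)) J - m (sh a J)) with hX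
  have hfm : ∀ L a, Measurable fun J => cb (σ L) (st a (0, i)) J - m (sh a J) := fun L a =>
    (cb_meas (hs.meas L) _).sub (hm.meas.comp (measurable_sh _))
  have hf2 : ∀ L a J, |cb (σ L) (st a (0, i)) J - m (sh a J)| ≤ 2 := fun L a J =>
    (abs_sub _ _).trans (by linarith [cb_le (σ L) (st a (0, i)) J, hm.le (sh a J)])
  have hX0 : ∀ L a, 0 ≤ X L a := fun L a => integral_nonneg fun ξ => hh_nonneg _ _ _ _
  have hX2 : ∀ L a, X L a ≤ 2 := by
    intro L a
    have := norm_integral_le_of_norm_le_const (μ := infinitePi fun _ : E => ν)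
      (f := fun ξ => hh μ δ (st a (0, i)) (fun J => cb (σ L) (st a (0, i)) J - m (sh a J)) ξ)
      (C := 2) (Eventually.of_forall fun x => by
        rw [Real.norm_eq_abs]; exact hh_le (hf2 L a) _ _ _)
    rw [probReal_univ, mul_one, Real.norm_eq_abs] at this
    exact (le_abs_self _).trans this
  rw [Metric.tendsto_atTop]
  intro ε hε
  obtain ⟨n, F1, hn, href⟩ := ref_win (ν := ν) hμ hat i hδ (ε := ε / 16) (by linarith)
  obtain ⟨F2, hF2⟩ := CE_approx (μ := μ) hm.meas hm.le (ε := ε / 16) (by linarith)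
  set F := F1 ∪ F2 with hF
  have hη := hF2 F Finset.subset_union_right
  -- the contribution of the finite sets
  set U : ℕ → V → ℝ := fun L a => ∑ S ∈ F.powerset, nI μ (sS a (S : Set E))
    (fun J => cb (σ L) (st a (0, i)) J - m (sh a J)) with hU
  have hU0 : ∀ L a, 0 ≤ U L a := fun L a => Finset.sum_nonneg fun S _ => nI_nonneg _ _
  have hUt : Tendsto (fun L : ℕ => (∑ a ∈ pos L, U L a) / (L : ℝ) ^ 2) atTop (𝓝 0) := by
    have h1 : Tendsto (fun L : ℕ => ∑ S ∈ F.powerset, (∑ a ∈ pos L, nI μ (sS a (S : Set E))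
        (fun J => cb (σ L) (st a (0, i)) J - m (sh a J))) / (L : ℝ) ^ 2) atTop (𝓝 (∑ S ∈ F.powerset, 0)) :=
      tendsto_finsetSum _ fun S _ => ubm_set hm hs S
    rw [Finset.sum_const_zero] at h1
    refine h1.congr fun L => ?_
    rw [← Finset.sum_div, Finset.sum_comm]
  have hUe := hUt.eventually (gt_mem_nhds (show (0 : ℝ) < ε / 8 by linarith))
  obtain ⟨L0, hL0⟩ := exists_nat_gt (2 * (4 * ((n * 1 + 1 : ℕ) : ℝ)) / (ε / 8))
  obtain ⟨L1, hL1⟩ := eventually_atTop.1 hUe
  refine ⟨max L0 L1 + 1, fun L hL => ?_⟩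
  have hLpos : (0 : ℝ) < L := by
    have : 0 < L := by omega
    exact_mod_cast this
  have hL2 : (0 : ℝ) < (L : ℝ) ^ 2 := by positivity
  have hLL : (L0 : ℝ) ≤ L := by exact_mod_cast (by omega : L0 ≤ L)
  have h1 : 0 ≤ (∑ a ∈ pos L, X L a) / (L : ℝ) ^ 2 :=
    div_nonneg (Finset.sum_nonneg fun a _ => hX0 L a) hL2.le
  rw [Real.dist_eq, sub_zero, abs_of_nonneg h1, div_lt_iff₀ hL2]
  -- the positions away from the boundary
  set A : V → ℝ := fun a => max 0 ((X L a - U L a - 2 * (ε / 16)) / 2) with hA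
  have hbox : ∑ a ∈ dp L (n * 1 + 1), A a ≤ ε / 16 * (L : ℝ) ^ 2 := by
    refine box_sum (N := 1) hn (fun a => le_max_left _ _) (by linarith) fun x hx => ?_
    have hx' : ∀ i, 0 < x i ∧ x i + (n : ℕ) < L := by simpa using hx
    obtain ⟨g, hgm, hg1, hgd, hsum⟩ := href w σ hs L x hx'
    refine le_trans (Finset.sum_le_sum fun k hk => ?_) hsum
    rw [nk_one]
    have hD0 : 0 ≤ Dl μ ν δ (st (k + x) (0, i))
        (fun J => cb (σ L) (st (k + x) (0, i)) J - g k J) :=
      integral_nonneg fun ξ => hh_nonneg _ _ _ _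
    have h2 := cmp_rnd (μ := μ) (ν := ν) (a := k + x) (F := F)
      (f := cb (σ L) (st (k + x) (0, i))) (M := fun J => m (sh (k + x) J)) (g := g k)
      (cb_meas (hs.meas L) _) (hm.meas.comp (measurable_sh _)) (hgm k) (cb_le _ _)
      (fun J => hm.le _) (hg1 k) ((hgd k hk).mono fun e he => by
        rw [mem_sS] at he ⊢
        exact Finset.mem_coe.2 (Finset.mem_union_left _ (Finset.mem_coe.1 he))) δ
      (st (k + x) (0, i))
    rw [eta_sh hm.meas] at h2
    refine max_le hD0 ?_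
    have h3 : X L (k + x) ≤ 2 * Dl μ ν δ (st (k + x) (0, i))
        (fun J => cb (σ L) (st (k + x) (0, i)) J - g k J) + U L (k + x) +
          2 * ∫ J, |m J - CE μ (F : Set E) m J| ∂(infinitePi fun _ : E => μ) := h2
    linarith
  have h2 : ∀ a ∈ dp L (n * 1 + 1), X L a ≤ 2 * A a + U L a + 2 * (ε / 16) := by
    intro a _
    have := le_max_right 0 ((X L a - U L a - 2 * (ε / 16)) / 2)
    simp only [hA]
    linarith
  have h3 := Finset.sum_le_sum h2
  rw [Finset.sum_add_distrib, Finset.sum_add_distrib, ← Finset.mul_sum, Finset.sum_const,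
    nsmul_eq_mul] at h3
  have h4 := pos_dp L (n * 1 + 1) (f := X L) (B := 2) (hX0 L) (hX2 L)
  have h5 : ∑ a ∈ dp L (n * 1 + 1), U L a ≤ ∑ a ∈ pos L, U L a := by
    refine Finset.sum_le_sum_of_subset_of_nonneg (fun a ha => ?_) fun a _ _ => hU0 L a
    rw [mem_dp] at ha
    rw [mem_pos]
    intro j
    have := ha j
    have hm0 : (0 : ℤ) ≤ ((n * 1 + 1 : ℕ) : ℤ) := Nat.cast_nonneg _
    constructor <;> linarith [this.1, this.2]
  have h6 := hL1 L (by omega)
  rw [div_lt_iff₀ hL2] at h6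
  have h7 := dp_card_le L (n * 1 + 1)
  have h8 : 2 * (4 * ((n * 1 + 1 : ℕ) : ℝ)) ≤ ε / 8 * L := by
    rw [div_lt_iff₀ (by linarith)] at hL0
    nlinarith
  have h9 : 2 * (4 * ((n * 1 + 1 : ℕ) : ℝ) * L) ≤ ε / 8 * (L : ℝ) ^ 2 := by
    have := mul_le_mul_of_nonneg_right h8 hLpos.le
    nlinarith
  have h10 : ((dp L (n * 1 + 1)).card : ℝ) * (2 * (ε / 16)) ≤ (L : ℝ) ^ 2 * (2 * (ε / 16)) :=
    mul_le_mul_of_nonneg_right h7 (by linarith)
  nlinarith

end Pool.Agent.Helper24.NZ
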