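import Pool.Agent.Helper24.NZ.J

/-!
# Correlations after resampling
-/

set_option autoImplicit false
set_option linter.unusedSectionVars false

open MeasureTheory Measure Filter Topology

namespace Pool.Agent.Helper24.NZ

open Pool.Agent.K3h93.EA Pool.Agent.Helper24.EA
open Pool.Agent.K3h93.EF hiding psi_eq psi_le psi_meas upper1 psi_le' step1 step2 step3 scale_est main_est main_abs

variable {μ ν : Measure ℝ} [IsProbabilityMeasure μ] [IsProbabilityMeasure ν]

/-- the law of the marks and of two independent copies of the couplings -/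
noncomputable def PQ (μ ν : Measure ℝ) : Measure ((E → ℝ) × ((E → ℝ) × (E → ℝ))) :=
  (infinitePi fun _ : E => ν).prod
    ((infinitePi fun _ : E => μ).prod (infinitePi fun _ : E => μ))

instance : IsProbabilityMeasure (PQ μ ν) := by unfold PQ; infer_instance

/-- the correlation after resampling -/
noncomputable def Cr (μ ν : Measure ℝ) (δ : ℝ) (f g : (E → ℝ) → ℝ) : ℝ :=
  ∫ p, f p.2.1 * g (mx δ p.1 p.2.1 p.2.2) ∂(PQ μ ν)

lemma PQ_bdd {f : (E → ℝ) × ((E → ℝ) × (E → ℝ)) → ℝ} (hf : Measurable f) {C : ℝ}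
    (hC : ∀ x, |f x| ≤ C) : Integrable f (PQ μ ν) :=
  Integrable.of_bound hf.aestronglyMeasurable C
    (Eventually.of_forall fun x => by rw [Real.norm_eq_abs]; exact hC x)

variable {f g f' g' h : (E → ℝ) → ℝ} {δ : ℝ}

lemma Cr_eq (hf : Measurable f) (hg : Measurable g) (f1 : ∀ J, |f J| ≤ 1) (g1 : ∀ J, |g J| ≤ 1)
    (δ : ℝ) : Cr μ ν δ f g = ∫ ξ, ∫ J, CE μ (kn δ ξ) f J * CE μ (kn δ ξ) g J
      ∂(infinitePi fun _ : E => μ) ∂(infinitePi fun _ : E => ν) := by
  have hm : Measurable fun p : (E → ℝ) × ((E → ℝ) × (E → ℝ)) =>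
      f p.2.1 * g (mx δ p.1 p.2.1 p.2.2) :=
    (hf.comp (measurable_fst.comp measurable_snd)).mul (hg.comp (mx_meas δ))
  have hb : ∀ p : (E → ℝ) × ((E → ℝ) × (E → ℝ)), |f p.2.1 * g (mx δ p.1 p.2.1 p.2.2)| ≤ 1 := by
    intro p
    rw [abs_mul]
    have := f1 p.2.1
    have := g1 (mx δ p.1 p.2.1 p.2.2)
    nlinarith [abs_nonneg (f p.2.1), abs_nonneg (g (mx δ p.1 p.2.1 p.2.2))]
  unfold Cr PQ
  rw [integral_prod _ (PQ_bdd hm hb)]
  refine integral_congr_ae (Eventually.of_forall fun ξ => ?_)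
  simp only
  have hm2 : Measurable fun p : (E → ℝ) × (E → ℝ) => f p.1 * g (mx δ ξ p.1 p.2) :=
    hm.comp (measurable_const.prodMk measurable_id)
  rw [integral_prod _ (pp_bdd μ hm2 (C := 1) fun p => hb (ξ, p))]
  have e1 : ∀ J, ∫ y, f J * g (mx δ ξ J y) ∂(infinitePi fun _ : E => μ) =
      f J * CE μ (kn δ ξ) g J := by
    intro J
    rw [integral_const_mul]
    rfl
  simp only [e1]
  exact (CE_mul μ hf f1 (CE_meas μ hg _) (CE_le μ g1 _) (CE_dep μ _ _)).symm

lemma nI_kn (hf : Measurable f) {C : ℝ} (hC : ∀ J, |f J| ≤ C) (δ : ℝ) (e : E) :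
    ∫ ξ, nI μ (kn δ ξ) f ∂(infinitePi fun _ : E => ν) ≤ Dl μ ν δ e f := by
  have hm : Measurable fun ξ => nI μ (kn δ ξ) f := by
    have h1 := (CEk_meas (μ := μ) hf δ).abs
    exact (h1.stronglyMeasurable.integral_prod_right).measurable
  refine integral_mono (int_bdd ν hm (C := C) fun ξ => ?_)
    (int_bdd ν (hh_meas hf δ e) (C := C) (hh_le hC δ e)) fun ξ => ?_
  · rw [abs_of_nonneg (nI_nonneg _ _)]
    exact nI_le hC _
  · exact nI_mono hf hC (Set.subset_insert _ _)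

lemma Cr_sub (hf : Measurable f) (hg : Measurable g) (hM : Measurable h)
    (f1 : ∀ J, |f J| ≤ 1) (g1 : ∀ J, |g J| ≤ 1) (h1 : ∀ J, |h J| ≤ 1) (δ : ℝ) (e : E) :
    |Cr μ ν δ f g - Cr μ ν δ h h| ≤ Dl μ ν δ e (fun J => f J - h J) +
      Dl μ ν δ e (fun J => g J - h J) := by
  set P := infinitePi fun _ : E => μ with hP
  set Q := infinitePi fun _ : E => ν with hQ
  have hprod : ∀ {u v : (E → ℝ) → ℝ}, Measurable u → Measurable v → (∀ J, |u J| ≤ 1) →
      (∀ J, |v J| ≤ 1) → (∀ ξ, Integrable (fun J => CE μ (kn δ ξ) u J * CE μ (kn δ ξ) v J) P) ∧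
      Integrable (fun ξ => ∫ J, CE μ (kn δ ξ) u J * CE μ (kn δ ξ) v J ∂P) Q := by
    intro u v hu hv u1 v1
    have hb : ∀ ξ J, |CE μ (kn δ ξ) u J * CE μ (kn δ ξ) v J| ≤ 1 := fun ξ J => by
      rw [abs_mul]
      have := CE_le μ u1 (kn δ ξ) J
      have := CE_le μ v1 (kn δ ξ) J
      nlinarith [abs_nonneg (CE μ (kn δ ξ) u J), abs_nonneg (CE μ (kn δ ξ) v J)]
    refine ⟨fun ξ => int_bdd μ ((CE_meas μ hu _).mul (CE_meas μ hv _)) (hb ξ), ?_⟩
    have hm : Measurable fun p : (E → ℝ) × (E → ℝ) =>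
        CE μ (kn δ p.1) u p.2 * CE μ (kn δ p.1) v p.2 := (CEk_meas hu δ).mul (CEk_meas hv δ)
    exact (pq_bdd (μ := μ) (ν := ν) hm (C := 1) fun p => hb _ _).integral_prod_left
  have i1 := hprod hf hg f1 g1
  have i2 := hprod hM hM h1 h1
  rw [Cr_eq hf hg f1 g1, Cr_eq hM hM h1 h1, ← integral_sub i1.2 i2.2]
  have b2 : ∀ {u v : (E → ℝ) → ℝ}, (∀ J, |u J| ≤ 1) → (∀ J, |v J| ≤ 1) →
      ∀ J, |u J - v J| ≤ 2 := fun hu hv J => (abs_sub _ _).trans (by linarith [hu J, hv J])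
  have hnm : ∀ {u : (E → ℝ) → ℝ}, Measurable u → (∀ J, |u J| ≤ 2) →
      Integrable (fun ξ => nI μ (kn δ ξ) u) Q := by
    intro u hu u2
    have hm : Measurable fun ξ => nI μ (kn δ ξ) u := by
      have h1 := (CEk_meas (μ := μ) hu δ).abs
      exact (h1.stronglyMeasurable.integral_prod_right).measurable
    exact int_bdd ν hm (C := 2) fun ξ => by
      rw [abs_of_nonneg (nI_nonneg _ _)]; exact nI_le u2 _
  have hpt : ∀ ξ, |∫ J, CE μ (kn δ ξ) f J * CE μ (kn δ ξ) g J ∂P -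
      ∫ J, CE μ (kn δ ξ) h J * CE μ (kn δ ξ) h J ∂P| ≤
        nI μ (kn δ ξ) (fun J => f J - h J) + nI μ (kn δ ξ) (fun J => g J - h J) := by
    intro ξ
    rw [← integral_sub (i1.1 ξ) (i2.1 ξ)]
    refine abs_integral_le_integral_abs.trans ?_
    unfold nI
    have j1 : Integrable (fun J => |CE μ (kn δ ξ) (fun J => f J - h J) J|) P :=
      int_bdd μ (CE_meas μ (hf.sub hM) _).abs (C := 2) fun J => by
        rw [abs_abs]; exact CE_le μ (b2 f1 h1) _ _
    have j2 : Integrable (fun J => |CE μ (kn δ ξ) (fun J => g J - h J) J|) P :=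
      int_bdd μ (CE_meas μ (hg.sub hM) _).abs (C := 2) fun J => by
        rw [abs_abs]; exact CE_le μ (b2 g1 h1) _ _
    rw [← integral_add j1 j2]
    refine integral_mono ((i1.1 ξ).sub (i2.1 ξ)).abs (j1.add j2) fun J => ?_
    simp only
    rw [CE_sub hf f1 hM h1, CE_sub hg g1 hM h1]
    set a := CE μ (kn δ ξ) f J
    set b := CE μ (kn δ ξ) g J
    set c := CE μ (kn δ ξ) h J
    have hb1 : |b| ≤ 1 := CE_le μ g1 _ _
    have hc1 : |c| ≤ 1 := CE_le μ h1 _ _
    have e1 : a * b - c * c = (a - c) * b + c * (b - c) := by ring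
    rw [e1]
    refine (abs_add_le _ _).trans ?_
    rw [abs_mul, abs_mul]
    nlinarith [abs_nonneg (a - c), abs_nonneg (b - c)]
  refine abs_integral_le_integral_abs.trans ?_
  have h3 : ∫ ξ, |∫ J, CE μ (kn δ ξ) f J * CE μ (kn δ ξ) g J ∂P -
      ∫ J, CE μ (kn δ ξ) h J * CE μ (kn δ ξ) h J ∂P| ∂Q ≤
      ∫ ξ, (nI μ (kn δ ξ) (fun J => f J - h J) + nI μ (kn δ ξ) (fun J => g J - h J)) ∂Q :=
    integral_mono (i1.2.sub i2.2).abs
      ((hnm (hf.sub hM) (b2 f1 h1)).add (hnm (hg.sub hM) (b2 g1 h1))) hpt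
  have h4 : ∫ ξ, (nI μ (kn δ ξ) (fun J => f J - h J) + nI μ (kn δ ξ) (fun J => g J - h J)) ∂Q =
      ∫ ξ, nI μ (kn δ ξ) (fun J => f J - h J) ∂Q + ∫ ξ, nI μ (kn δ ξ) (fun J => g J - h J) ∂Q :=
    integral_add (hnm (hf.sub hM) (b2 f1 h1)) (hnm (hg.sub hM) (b2 g1 h1))
  rw [h4] at h3
  exact h3.trans (add_le_add (nI_kn (hf.sub hM) (b2 f1 h1) δ e)
    (nI_kn (hg.sub hM) (b2 g1 h1) δ e))

lemma mx_sh (a : V) (δ : ℝ) (ξ J y : E → ℝ) :
    sh a (mx δ ξ J y) = mx δ (sh a ξ) (sh a J) (sh a y) := by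
  funext e
  rw [sh_apply, mx_apply, mx_apply, sh_apply, sh_apply, sh_apply]

lemma Cr_sh (hf : Measurable f) (hg : Measurable g) (a : V) (δ : ℝ) :
    Cr μ ν δ (fun J => f (sh a J)) (fun J => g (sh a J)) = Cr μ ν δ f g := by
  unfold Cr
  have h1 : MeasurePreserving (fun p : (E → ℝ) × ((E → ℝ) × (E → ℝ)) =>
      (sh a p.1, (sh a p.2.1, sh a p.2.2))) (PQ μ ν) (PQ μ ν) := by
    unfold PQ
    exact (sh_law ν a).prod ((sh_law μ a).prod (sh_law μ a))
  have hm : Measurable fun p : (E → ℝ) × ((E → ℝ) × (E → ℝ)) =>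
      f p.2.1 * g (mx δ p.1 p.2.1 p.2.2) :=
    (hf.comp (measurable_fst.comp measurable_snd)).mul (hg.comp (mx_meas δ))
  rw [← mp_int h1 hm]
  simp only [mx_sh]

variable {w w' : ℕ → (E → ℝ) → (V → ℝ) → ℝ} {σ σ' : ℕ → (E → ℝ) → V → ℝ} {m : (E → ℝ) → ℝ}
  {i : Fin 2}

/-- **The universal response.** -/
theorem Cr_tendsto (hμ : Integrable (fun x : ℝ => x) μ) (hat : ∀ x, μ {x} = 0)
    (hδ : 0 < ν.real (Set.Iio δ)) (hm : Um μ (0, i) m) (hs : Sq μ w σ) (hs' : Sq μ w' σ') :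
    Tendsto (fun L : ℕ => (∑ a ∈ pos L, Cr μ ν δ (cb (σ L) (st a (0, i)))
      (cb (σ' L) (st a (0, i)))) / (L : ℝ) ^ 2) atTop (𝓝 (Cr μ ν δ m m)) := by
  have h1 := lim_rnd (ν := ν) hμ hat hδ hm hs
  have h2 := lim_rnd (ν := ν) hμ hat hδ hm hs'
  have h3 := h1.add h2
  rw [add_zero] at h3
  rw [tendsto_iff_norm_sub_tendsto_zero]
  refine squeeze_zero' (Eventually.of_forall fun L => norm_nonneg _) ?_ h3
  filter_upwards [eventually_ge_atTop 1] with L hL
  have hL0 : (0 : ℝ) < (L : ℝ) ^ 2 := by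
    have : (0 : ℝ) < L := by exact_mod_cast hL
    positivity
  rw [← avg_const hL (Cr μ ν δ m m), Real.norm_eq_abs, ← sub_div, ← Finset.sum_sub_distrib,
    abs_div, abs_of_pos hL0, ← add_div, ← Finset.sum_add_distrib]
  refine div_le_div_of_nonneg_right ?_ hL0.le
  refine (Finset.abs_sum_le_sum_abs _ _).trans (Finset.sum_le_sum fun a _ => ?_)
  have h4 := Cr_sub (μ := μ) (ν := ν) (h := fun J => m (sh a J)) (cb_meas (hs.meas L) (st a (0, i)))
    (cb_meas (hs'.meas L) (st a (0, i))) (hm.meas.comp (measurable_sh a)) (cb_le _ _) (cb_le _ _)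
    (fun J => hm.le _) δ (st a (0, i))
  rw [Cr_sh hm.meas hm.meas a δ] at h4
  exact h4

/-! ### The response function -/

lemma Cr_self (hm : Measurable m) (hm1 : ∀ J, |m J| ≤ 1) (δ : ℝ) :
    Cr μ ν δ m m = ∫ ξ, En μ (kn δ ξ) m ∂(infinitePi fun _ : E => ν) := by
  rw [Cr_eq hm hm hm1 hm1]
  unfold En
  simp only [sq]

lemma En_meas (hm : Measurable m) (δ : ℝ) : Measurable fun ξ => En μ (kn δ ξ) m := by
  unfold En
  exact (((CEk_meas (μ := μ) hm δ).pow_const 2).stronglyMeasurable.integral_prod_right).measurable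

lemma En_int (hm : Measurable m) (hm1 : ∀ J, |m J| ≤ 1) (δ : ℝ) :
    Integrable (fun ξ => En μ (kn δ ξ) m) (infinitePi fun _ : E => ν) :=
  int_bdd ν (En_meas hm δ) (C := 1 ^ 2) fun ξ => by
    rw [abs_of_nonneg (En_nonneg μ _)]; exact En_le μ hm hm1 _

lemma Cr_anti (hm : Measurable m) (hm1 : ∀ J, |m J| ≤ 1) {δ δ' : ℝ} (h : δ ≤ δ') :
    Cr μ ν δ' m m ≤ Cr μ ν δ m m := by
  rw [Cr_self hm hm1, Cr_self hm hm1]
  refine integral_mono (En_int hm hm1 _) (En_int hm hm1 _) fun ξ => ?_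
  refine En_mono μ hm hm1 fun e he => ?_
  rw [mem_kn] at he ⊢
  exact h.trans he

lemma Cr_le (hm : Measurable m) (hm1 : ∀ J, |m J| ≤ 1) (δ : ℝ) :
    Cr μ ν δ m m ≤ ∫ J, m J ^ 2 ∂(infinitePi fun _ : E => μ) := by
  rw [Cr_self hm hm1]
  have h1 : ∀ ξ, En μ (kn δ ξ) m ≤ ∫ J, m J ^ 2 ∂(infinitePi fun _ : E => μ) := by
    intro ξ
    have h2 := En_mono μ hm hm1 (Set.subset_univ (kn δ ξ))
    refine h2.trans (le_of_eq ?_)
    unfold En
    simp only [CE_univ]
  have h2 := integral_mono (En_int (ν := ν) hm hm1 δ) (integrable_const _) h1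
  rwa [integral_const, probReal_univ, one_smul] at h2

lemma Cr_nonneg (hm : Measurable m) (hm1 : ∀ J, |m J| ≤ 1) (δ : ℝ) : 0 ≤ Cr μ ν δ m m := by
  rw [Cr_self hm hm1]
  exact integral_nonneg fun ξ => En_nonneg μ _

/-- the limit of the response function at `0` -/
lemma Cr_zero (hm : Measurable m) (hm1 : ∀ J, |m J| ≤ 1)
    (hν : Tendsto (fun δ : ℝ => ν.real (Set.Iio δ)) (𝓝[>] 0) (𝓝 0)) :
    Tendsto (fun δ : ℝ => Cr μ ν δ m m) (𝓝[>] 0)
      (𝓝 (∫ J, m J ^ 2 ∂(infinitePi fun _ : E => μ))) := by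
  classical
  set P := infinitePi fun _ : E => μ with hP
  set Q := infinitePi fun _ : E => ν with hQ
  rw [Metric.tendsto_nhds]
  intro ε hε
  obtain ⟨F, hF⟩ := CE_approx (μ := μ) hm hm1 (ε := ε / 8) (by linarith)
  have hη := hF F le_rfl
  set A : Set E := (F : Set E) with hA
  have mA := CE_meas μ hm A
  -- the energy of the window
  have h1 : ∫ J, m J ^ 2 ∂P - ε / 2 ≤ En μ A m := by
    have h2 := CE_incr μ hm hm1 (Set.subset_univ A)
    have h3 : En μ Set.univ m = ∫ J, m J ^ 2 ∂P := by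
      unfold En
      simp only [CE_univ]
      rfl
    rw [h3] at h2
    simp only [CE_univ] at h2
    have h4 : ∫ J, (m J - CE μ A m J) ^ 2 ∂P ≤ ∫ J, 2 * |m J - CE μ A m J| ∂P := by
      have b2 : ∀ J, |m J - CE μ A m J| ≤ 2 := fun J =>
        (abs_sub _ _).trans (by linarith [hm1 J, CE_le μ hm1 A J])
      refine integral_mono (int_bdd μ ((hm.sub mA).pow_const 2) (C := 4) fun J => ?_)
        ((int_bdd μ (hm.sub mA).abs (C := 2) fun J => by rw [abs_abs]; exact b2 J).const_mul 2)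
        fun J => ?_
      · rw [abs_of_nonneg (sq_nonneg _), ← sq_abs]
        have := b2 J
        nlinarith [abs_nonneg (m J - CE μ A m J)]
      · simp only
        rw [← sq_abs]
        have := b2 J
        nlinarith [abs_nonneg (m J - CE μ A m J)]
    rw [integral_const_mul] at h4
    have h5 : ∫ J, (m J - CE μ A m J) ^ 2 ∂P = ∫ J, m J ^ 2 ∂P - En μ A m := h2
    linarith
  have hE0 := En_nonneg (f := m) μ A
  have hE1 : En μ A m ≤ 1 := by
    have := En_le μ hm hm1 A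
    linarith
  -- the lower bound
  have hlow : ∀ δ : ℝ, En μ A m * (1 - F.card * ν.real (Set.Iio δ)) ≤ Cr μ ν δ m m := by
    intro δ
    set ind : E → (E → ℝ) → ℝ := fun e ξ => Set.indicator (Set.Iio δ) (fun _ => (1 : ℝ)) (ξ e)
      with hind
    have hindm : ∀ e, Measurable (ind e) := fun e =>
      (measurable_const.indicator measurableSet_Iio).comp (measurable_pi_apply e)
    have hind01 : ∀ e ξ, 0 ≤ ind e ξ ∧ ind e ξ ≤ 1 := fun e ξ => by
      simp only [hind]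
      unfold Set.indicator
      split_ifs <;> norm_num
    have hindi : ∀ e, ∫ ξ, ind e ξ ∂Q = ν.real (Set.Iio δ) := by
      intro e
      have h7 := (measurePreserving_eval_infinitePi (fun _ : E => ν) e)
      have h8 := integral_map (μ := infinitePi fun _ : E => ν) (φ := Function.eval e)
        h7.measurable.aemeasurable (f := Set.indicator (Set.Iio δ) (fun _ => (1 : ℝ)))
        ((measurable_const.indicator measurableSet_Iio).aestronglyMeasurable)
      rw [h7.map_eq, integral_indicator_const _ measurableSet_Iio, smul_eq_mul, mul_one] at h8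
      exact h8.symm
    have hi : ∀ e, Integrable (ind e) Q := fun e => int_bdd ν (hindm e) (C := 1) fun ξ => by
      rw [abs_of_nonneg (hind01 e ξ).1]; exact (hind01 e ξ).2
    have h2 : ∀ ξ, En μ A m * (1 - ∑ e ∈ F, ind e ξ) ≤ En μ (kn δ ξ) m := by
      intro ξ
      by_cases hs : A ⊆ kn δ ξ
      · have h3 : ∑ e ∈ F, ind e ξ = 0 := Finset.sum_eq_zero fun e he => by
          have h4 : δ ≤ ξ e := hs (Finset.mem_coe.2 he)
          simp only [hind]
          exact Set.indicator_of_notMem (fun h => absurd (Set.mem_Iio.1 h) (not_lt.2 h4)) _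
        rw [h3, sub_zero, mul_one]
        exact En_mono μ hm hm1 hs
      · rw [Set.not_subset] at hs
        obtain ⟨e, he, he'⟩ := hs
        have h3 : ind e ξ = 1 := by
          simp only [hind]
          exact Set.indicator_of_mem (Set.mem_Iio.2 (not_le.1 fun h => he' (mem_kn.2 h))) _
        have h4 : ind e ξ ≤ ∑ e ∈ F, ind e ξ :=
          Finset.single_le_sum (f := fun e => ind e ξ) (fun e _ => (hind01 e ξ).1)
            (Finset.mem_coe.1 he)
        have h5 := En_nonneg (f := m) μ (kn δ ξ)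
        rw [h3] at h4
        nlinarith
    have hIs : Integrable (fun ξ => ∑ e ∈ F, ind e ξ) Q := integrable_finsetSum F fun e _ => hi e
    have hI : Integrable (fun ξ => 1 - ∑ e ∈ F, ind e ξ) Q := (integrable_const (1 : ℝ)).sub hIs
    have hint : ∫ ξ, (1 - ∑ e ∈ F, ind e ξ) ∂Q = 1 - F.card * ν.real (Set.Iio δ) := by
      have e1 : ∫ ξ, (1 - ∑ e ∈ F, ind e ξ) ∂Q = ∫ _ξ, (1 : ℝ) ∂Q - ∫ ξ, ∑ e ∈ F, ind e ξ ∂Q :=
        integral_sub (integrable_const _) hIs
      rw [e1, integral_const, probReal_univ, one_smul, integral_finsetSum _ fun e _ => hi e,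
        Finset.sum_congr rfl fun e _ => hindi e, Finset.sum_const, nsmul_eq_mul]
    have h3 : ∫ ξ, En μ A m * (1 - ∑ e ∈ F, ind e ξ) ∂Q ≤ ∫ ξ, En μ (kn δ ξ) m ∂Q :=
      integral_mono (hI.const_mul (En μ A m)) (En_int (ν := ν) hm hm1 δ) h2
    rw [integral_const_mul, hint] at h3
    rw [Cr_self hm hm1]
    exact h3
  have h6 : Tendsto (fun δ : ℝ => En μ A m * (1 - F.card * ν.real (Set.Iio δ))) (𝓝[>] 0)
      (𝓝 (En μ A m * (1 - F.card * 0))) :=
    ((hν.const_mul _).const_sub 1).const_mul _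
  rw [mul_zero, sub_zero, mul_one] at h6
  have h7 := h6.eventually (lt_mem_nhds (show En μ A m - ε / 4 < En μ A m by linarith))
  filter_upwards [h7] with δ hδ
  have h8 := hlow δ
  have h9 := Cr_le (μ := μ) (ν := ν) hm hm1 δ
  rw [Real.dist_eq, abs_lt]
  constructor <;> linarith

end Pool.Agent.Helper24.NZ
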